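import Pool.Agent.J6H17.RF.Stm
import Pool.Agent.H628R3.RO.A3

/-!
# Project RF: the construction of a `p`-optimal proof system
-/

set_option autoImplicit false

namespace Pool.Agent.J6H17.RF

open Pool.Agent.NPC Pool.Agent.H628R3.RO

theorem poly_enc : Poly (fun t : T => t.enc) := by
  obtain ⟨c, p, h⟩ := PC.rawIn
  exact ⟨c, p, fun t => h t.enc⟩

theorem poly_bits {α β : Type} [TEnc α] [TEnc β] {f : α → β} (hf : Poly f) :
    Poly (fun a => bits (f a)) := poly_enc.comp hf.toT'

theorem asm_map (Pr μ : Fm) (n e u x z : ℕ) (π pe pu px pz pp : List Fm) :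
    (asm id Pr μ n e u x z π pe pu px pz pp).map Fm.code =
      asm Fm.code Pr μ n e u x z (π.map Fm.code) (pe.map Fm.code) (pu.map Fm.code)
        (px.map Fm.code) (pz.map Fm.code) (pp.map Fm.code) := by
  simp [asm]

theorem toT_list (l : List Fm) : toT l = T.ofList (l.map Fm.code) := rfl

theorem bits_map_code (l : List Fm) : bits (l.map Fm.code) = bits l := by
  unfold bits
  congr 1
  change T.ofList ((l.map Fm.code).map (fun t => t)) = T.ofList (l.map Fm.code)
  rw [List.map_id']

/-- the list of the trees in the code of a list -/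
def trees (y : List Bool) : List T := ((parse y).getD T.nil).toList

theorem trees_bits (l : List Fm) : trees (bits l) = l.map Fm.code := by
  unfold trees bits
  rw [parse_enc, Option.getD_some, toT_list, T.toList_ofList]

theorem poly_getD {α β : Type} [TEnc α] [TEnc β] {o : α → Option β} (ho : Poly o) (d : β) :
    Poly (fun a => (o a).getD d) :=
  (Poly.optCases (g := fun _ => d) (h := fun _ b => b) ho (NPC.Poly.const d)
    (Poly.snd Poly.id)).congr fun a => by cases o a <;> rfl

theorem poly_trees : Poly trees := Poly.treeList (poly_getD poly_parse T.nil)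

/-- the triple coded by a string -/
def trip (y : List Bool) : ℕ × ℕ × ℕ := (unbits (ℕ × ℕ × ℕ) y).getD (0, 0, 0)

theorem trip_bits (v : ℕ × ℕ × ℕ) : trip (bits v) = v := by
  unfold trip
  rw [unbits_bits, Option.getD_some]

theorem poly_trip : Poly trip := poly_getD poly_unbits _

/-- the test in the proof system: `y` codes a nonempty list whose first member is
`μ (e, x, z)`, where `v` codes `(e, x, z)` -/
def test (μ : Fm) (v y : List Bool) : Bool :=
  decide (v = bits (trip v)) && decide ((trees y).head? =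
    some (Fm.code (at3 μ (trip v).1 (trip v).2.1 (trip v).2.2)))

section

variable (hN : S_NUM) (hSP : S_SPOLY)

include hN hSP in
theorem poly_at3 (φ : Fm) {α : Type} [TEnc α] {e x z : α → ℕ} (he : Poly e) (hx : Poly x)
    (hz : Poly z) : Poly (fun a => at3 φ (e a) (x a) (z a)) := by
  refine hSP.1 α φ _ (fun i => ?_)
  by_cases h0 : i = 0
  · simp only [h0, if_true]
    exact hN.1.comp he
  · by_cases h2 : i = 2
    · simp only [h2, if_true]
      exact hN.1.comp hx
    · by_cases h3 : i = 3
      · simp only [h3]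
        exact hN.1.comp hz
      · simp only [if_neg h0, if_neg h2, if_neg h3]
        exact NPC.Poly.const _

include hN hSP in
theorem poly_test (μ : Fm) : Poly (fun p : List Bool × List Bool => test μ p.1 p.2) := by
  have hv : Poly (fun p : List Bool × List Bool => trip p.1) := poly_trip.comp (Poly.fst Poly.id)
  refine Poly.and ?_ ?_
  · exact Poly.decide_eq (Poly.fst Poly.id) (poly_bits hv)
  · refine Poly.decide_eq (Poly.head? (poly_trees.comp (Poly.snd Poly.id))) (Poly.some ?_)
    exact (poly_at3 hN hSP μ (Poly.fst hv) (Poly.fst (Poly.snd hv))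
      (Poly.snd (Poly.snd hv))).toT'

end

theorem test_iff {μ : Fm} {v : List Bool} {π : List Fm} :
    test μ v (bits π) = true ↔ ∃ (e x z : ℕ) (π' : List Fm), v = bits (e, x, z) ∧
      π = at3 μ e x z :: π' := by
  unfold test
  rw [trees_bits, Bool.and_eq_true, decide_eq_true_eq, decide_eq_true_eq]
  constructor
  · rintro ⟨h1, h2⟩
    cases π with
    | nil => simp at h2
    | cons φ π' =>
      rw [List.map_cons, List.head?_cons, Option.some.injEq] at h2
      exact ⟨(trip v).1, (trip v).2.1, (trip v).2.2, π', h1, by rw [Fm.code_injective h2]⟩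
  · rintro ⟨e, x, z, π', rfl, rfl⟩
    rw [trip_bits]
    exact ⟨rfl, rfl⟩

/-- the proof system: a proof is a string together with a proof from `S` -/
def sysP (C : List Bool → List Bool) (μ : Fm) (v₀ y : List Bool) : List Bool :=
  if C (unpair y).2 = [true] ∧ test μ (unpair y).1 (unpair y).2 = true then (unpair y).1 else v₀

theorem isFP_sysP (hN : S_NUM) (hSP : S_SPOLY) {A : Oracle} {C : List Bool → List Bool}
    (hC : IsFP A C) (μ : Fm) (v₀ : List Bool) : IsFP A (sysP C μ v₀) := by
  have h1 : IsFP A (fun y => C (unpair y).2) :=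
    IsFP.comp hC (IsFP.of_poly (Poly.snd poly_unpair))
  have hp : Poly (fun p : List Bool × List Bool × List Bool => unpair p.1) :=
    poly_unpair.comp (Poly.fst Poly.id)
  have h2 := IsFP.seq (A := A) h1 (IsFP.of_poly (A := A) Poly.id) (φ := fun p => p.1)
    (ψ := fun p => if p.2.1 = [true] ∧ test μ (unpair p.1).1 (unpair p.1).2 = true then
      (unpair p.1).1 else v₀) (Poly.fst Poly.id) (by
      refine Poly.ite (Poly.decide_and ?_ ?_) (Poly.fst hp) (NPC.Poly.const _)
      · exact Poly.decide_eq (Poly.fst (Poly.snd Poly.id)) (NPC.Poly.const _)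
      · refine Poly.decide_bool ?_
        exact (poly_test hN hSP μ).comp (Poly.pair (Poly.fst hp) (Poly.snd hp)))
  exact h2

theorem range_sysP {A : Oracle} {B : Set Fm} {μ : Fm} (hB : Base A B μ) {S : Set Fm}
    (hL : S_LOG) (hBS : B ⊆ S) (hcS : Consistent S) {C : List Bool → List Bool}
    (hC : ∀ y, C y = [true] ↔ ∃ π : List Fm, bits π = y ∧ IsProof S π) {v₀ : List Bool}
    (hv₀ : v₀ ∈ K B μ) : Set.range (sysP C μ v₀) = K B μ := by
  ext v
  constructor
  · rintro ⟨y, rfl⟩
    unfold sysP
    split_ifs with h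
    · obtain ⟨π, h1, h2⟩ := (hC _).1 h.1
      have h3 := h.2
      rw [← h1] at h3
      obtain ⟨e, x, z, π', h4, h5⟩ := test_iff.1 h3
      refine ⟨e, x, z, h4, ?_⟩
      rcases hB.decides e x z with h6 | h6
      · exact h6
      · exfalso
        obtain ⟨ρ, hρ⟩ := h6
        apply hcS
        rw [h5] at h2
        exact ⟨_, hL.2.1 S _ _ _ _ (hL.2.2.1 B S _ hBS hρ) h2⟩
    · exact hv₀
  · rintro ⟨e, x, z, rfl, π, hπ⟩
    refine ⟨pairBits (bits (e, x, z)) (bits (at3 μ e x z :: π)), ?_⟩
    unfold sysP
    rw [unpair_pairBits]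
    rw [if_pos]
    exact ⟨(hC _).2 ⟨_, rfl, hL.2.2.1 B S _ hBS hπ⟩, test_iff.2 ⟨e, x, z, π, rfl, rfl⟩⟩

theorem exists_mem {A : Oracle} {B : Set Fm} {μ : Fm} (hB : Base A B μ) : ∃ v, v ∈ K B μ := by
  have h : IsNP A Set.univ := by
    refine ⟨fun _ => [true], 0, IsFP.of_poly (NPC.Poly.const _), fun x => ?_⟩
    simp only [Set.mem_univ, true_iff]
    exact ⟨[], by simp, trivial⟩
  obtain ⟨e, p, hp⟩ := hB.univ _ h
  have h1 := (hp [] (2 ^ (p.eval 0)) (by
    rw [Nat.size_pow]
    simp)).1 (Set.mem_univ _)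
  exact ⟨_, e, _, _, rfl, h1⟩

end Pool.Agent.J6H17.RF
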