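import Pool.Agent.J6H17.RF.StmN
import Pool.Agent.H628R3.RO.A3
import Pool.Agent.H620R2.Gauge.Upper

/-!
# Project RF, negative answer: the final step
-/

set_option autoImplicit false

namespace Pool.Agent.J6H17.RF

open Pool.Agent.NPC Pool.Agent.H628R3.RO
open Pool.Agent.H620R2.Gauge (IsPSPACE)

theorem pairBits_inj {a b c d : List Bool} (h : pairBits a b = pairBits c d) : a = c ∧ b = d := by
  have h1 := congrArg unpair h
  rw [unpair_pairBits, unpair_pairBits, Prod.mk.injEq] at h1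
  exact h1

theorem trp_inj {Pr Pr' : Fm} {n n' m m' : ℕ} (h : trp Pr n m = trp Pr' n' m') :
    Pr = Pr' ∧ n = n' ∧ m = m' := by
  obtain ⟨h1, h2⟩ := pairBits_inj h
  obtain ⟨h3, h4⟩ := pairBits_inj h2
  refine ⟨bits_injective h1, ?_, ?_⟩
  · simpa using congrArg List.length h3
  · simpa using congrArg List.length h4

theorem provable_of_mem {A : Oracle} {B : Set Fm} {μ : Fm} (hB : BaseD A B μ) {Pr : Fm}
    {n m : ℕ} (h : trp Pr n m ∈ W B μ) : Proves B (rfn Pr μ n) := by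
  obtain ⟨Pr', n', m', h1, h2⟩ := h
  obtain ⟨rfl, rfl, rfl⟩ := trp_inj h1
  refine hB.bounded Pr n fun e u x z he hu hx hz => ?_
  obtain ⟨π, hπ, -⟩ := h2 e u x z he hu hx hz
  exact ⟨π, hπ⟩

/-- the code of the proof of `rfn Pr μ n` from the axiom of the string `w` -/
def outF (Pr μ : Fm) (a : List Bool × List Bool) : List Bool :=
  bits [rfn Pr μ a.2.length,
    (Fm.eq (.var (codeN a.1)) (.var (codeN a.1))).imp (rfn Pr μ a.2.length),
    Fm.eq (.var (codeN a.1)) (.var (codeN a.1))]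

theorem isFP_outF {A : Oracle} {Pr μ : Fm} (hf : Poly (outF Pr μ)) {h : List Bool → List Bool}
    (hh : IsFP A h) : IsFP A (fun y => outF Pr μ (h (true :: y), y)) := by
  have hcons : Poly (fun y : List Bool => true :: y) := Poly.cons (NPC.Poly.const true) Poly.id
  have h1 : IsFP A (fun y => h (true :: y)) := IsFP.comp hh (IsFP.of_poly hcons)
  have hg : Poly (fun p : List Bool × List Bool × List Bool => (p.2.1, p.1)) :=
    Poly.pair (Poly.fst (Poly.snd Poly.id)) (Poly.fst Poly.id)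
  have hid : IsFP A (fun y : List Bool => y) := IsFP.of_poly Poly.id
  exact IsFP.seq (A := A) (F := fun y => h (true :: y)) (G := fun y => y) h1 hid
    (φ := fun p => p.1) (ψ := fun p => outF Pr μ (p.2.1, p.1)) (Poly.fst Poly.id)
    (Poly.comp (g := outF Pr μ) (f := fun p : List Bool × List Bool × List Bool => (p.2.1, p.1))
      hf hg)

theorem finN (hL : S_LOG) (hPS : S_NPS) (hQ : S_NQ) (hTH : S_NTH) (hFP : S_NFP) (A : Oracle)
    (hA : ∀ L : Set (List Bool), IsPSPACE A L → L.Nonempty → ∃ P, IsPOptimal A L P) :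
    NegQuestion A := by
  intro B μ hB
  have hne : (W B μ).Nonempty := by
    obtain ⟨Pr, hPr⟩ := hB.formalD B hB.theory
    obtain ⟨q, hq⟩ := hQ A B μ hB B hB.theory subset_rfl hB.consistent Pr hPr
    exact ⟨_, hq 0⟩
  obtain ⟨P, ⟨hPf, hPr⟩, hPo⟩ := hA (W B μ) (hPS A B μ hB.theory) hne
  have hPW : ∀ w, P w ∈ W B μ := by
    intro w
    rw [← hPr]
    exact ⟨w, rfl⟩
  have hax : ∀ ψ ∈ SN B μ P, Proves B ψ := by
    rintro ψ (h | ⟨w, Pr, n, m, hw, rfl⟩)
    · exact ⟨[], trivial, Or.inl h⟩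
    · have h1 := hPW w
      rw [hw] at h1
      obtain ⟨π, hπ⟩ := provable_of_mem hB h1
      have hk : IsProof B [(rfn Pr μ n).imp
          ((Fm.eq (.var (codeN w)) (.var (codeN w))).imp (rfn Pr μ n))] :=
        ⟨trivial, Or.inl (hB.theory.1 _ (LogAx.k _ _))⟩
      exact ⟨_, hL.2.1 B _ _ _ _ hk hπ⟩
  refine ⟨SN B μ P, hTH A B μ P hB.theory hPf (fun w => ?_), Set.subset_union_left,
    fun h => hB.consistent (hL.2.2.2 B _ _ hax h), ?_⟩
  · obtain ⟨Pr, n, m, h, -⟩ := hPW w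
    exact ⟨Pr, n, m, h⟩
  intro T hT hBT hcT Pr hPr'
  obtain ⟨q, hq⟩ := hQ A B μ hB T hT hBT hcT Pr hPr'
  obtain ⟨hf1, hf2⟩ := hFP Pr μ q
  set F0 : List Bool → List Bool := fun y => trp Pr y.length (q.eval y.length) with hF0
  have hQs : IsProofSystem A (W B μ) (addSys F0 P (fun y => y)) := by
    refine ⟨addSys_isFP (IsFP.of_poly hf1) hPf (IsFP.of_poly Poly.id), ?_⟩
    ext v
    constructor
    · rintro ⟨y, rfl⟩
      unfold addSys
      split_ifs
      · exact hq _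
      · exact hPW _
    · intro hv
      rw [← hPr] at hv
      obtain ⟨w, rfl⟩ := hv
      exact ⟨false :: w, by simp [addSys]⟩
  obtain ⟨h, hh, hPh⟩ := hPo _ hQs
  refine ⟨_, isFP_outF hf2 hh, fun n => ?_⟩
  have h3 : P (h (true :: List.replicate n true)) = trp Pr n (q.eval n) := by
    rw [hPh]
    simp [addSys, hF0]
  generalize h (true :: List.replicate n true) = w at h3
  refine ⟨[(Fm.eq (.var (codeN w)) (.var (codeN w))).imp (rfn Pr μ n),
    Fm.eq (.var (codeN w)) (.var (codeN w))], ?_, ?_⟩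
  · unfold outF
    simp only [List.length_replicate]
  have hp : Fm.eq (.var (codeN w)) (.var (codeN w)) ∈ SN B μ P :=
    Or.inl (hB.theory.1 _ (LogAx.refl _))
  have ha : (Fm.eq (.var (codeN w)) (.var (codeN w))).imp (rfn Pr μ n) ∈ SN B μ P :=
    Or.inr ⟨w, Pr, n, _, h3, rfl⟩
  exact ⟨⟨⟨trivial, Or.inl hp⟩, Or.inl ha⟩, Or.inr (Or.inl
    ⟨Fm.eq (.var (codeN w)) (.var (codeN w)), List.mem_cons_of_mem _ (List.mem_singleton_self _),
      List.mem_cons_self⟩)⟩

end Pool.Agent.J6H17.RF
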