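import Pool.Agent.J6H17.RF.Fin

/-!
# Project RF: closure properties of functions on coded data
-/

set_option autoImplicit false

namespace Pool.Agent.J6H17.RF.Opc

open Pool.Agent.NPC Pool.Agent.H628R3.RO

def unraw (y : List Bool) : List Bool := (unbits (List Bool) y).getD []

theorem unraw_bits (x : List Bool) : unraw (bits x) = x := by
  unfold unraw
  rw [unbits_bits, Option.getD_some]

theorem poly_unraw : Poly unraw := poly_getD poly_unbits _

theorem main : S_OPC := by
  intro A
  have hb : IsFP A (fun v : List Bool => bits v) :=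
    IsFP.of_poly (poly_bits (Poly.id (α := List Bool)))
  refine ⟨?_, ?_, ?_, ?_, ?_, ?_⟩
  · intro α β γ _ _ _ f g ⟨F, hF, hF'⟩ ⟨G, hG, hG'⟩
    exact ⟨fun y => G (F y), IsFP.comp hG hF, fun a => by simp only [hF', hG']⟩
  · intro α β γ _ _ _ f g ⟨F, hF, hF'⟩ ⟨G, hG, hG'⟩
    refine ⟨fun y => true :: (F y ++ G y), ?_, fun a => ?_⟩
    · exact IsFP.seq (A := A) (F := F) (G := G) hF hG (φ := fun p => p.1)
        (ψ := fun p => true :: (p.2.1 ++ p.2.2)) (Poly.fst Poly.id)
        (Poly.cons (NPC.Poly.const true) (Poly.append (Poly.fst (Poly.snd Poly.id))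
          (Poly.snd (Poly.snd Poly.id))))
    · simp only [hF', hG']
      rfl
  · intro α β _ _ _ f hf
    refine ⟨fun y => match unbits α y with | none => [] | some a => bits (f a), ?_, fun a => ?_⟩
    · have h : Poly (fun y : List Bool => match unbits α y with
          | none => ([] : List Bool) | some a => bits (f a)) :=
        Poly.optCases (o := unbits α) (g := fun _ => ([] : List Bool))
          (h := fun _ a => bits (f a)) poly_unbits (NPC.Poly.const _)
          ((poly_bits hf).comp (Poly.snd Poly.id))
      exact IsFP.of_poly h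
    · simp only [unbits_bits]
  · intro F hF
    refine ⟨fun y => bits (F (unraw y)), ?_, fun a => ?_⟩
    · exact IsFP.comp hb (IsFP.comp hF (IsFP.of_poly poly_unraw))
    · simp only [unraw_bits]
  · intro F ⟨F', hF, hF'⟩
    have h : IsFP A (fun y => unraw (F' (bits y))) :=
      IsFP.comp (IsFP.of_poly poly_unraw) (IsFP.comp hF hb)
    have e : (fun y => unraw (F' (bits y))) = F := by
      funext y
      rw [hF', unraw_bits]
    rwa [e] at h
  · intro F hF
    exact ⟨fun y => bits (F y), IsFP.comp hb hF, fun t => rfl⟩

end Pool.Agent.J6H17.RF.Opc
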