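import Pool.Agent.J6H17.RF.Fin2
import Pool.Agent.J6H17.RF.FinN
import Pool.Agent.J6H17.RF.Opc
import Pool.Agent.J6H1.RF.Log
import Pool.Agent.J6H22.RF.Sub
import Pool.Agent.J6H8.RF.Asmc
import Pool.Agent.J6H42.RF.Num
import Pool.Agent.J6H97.RF.Spoly
import Pool.Agent.J6H57.RF.Asmp
import Pool.Agent.J6H80.RF.Hard
import Pool.Agent.J6H27.RF.Tg
import Pool.Agent.J6H86.RF.Cons
import Pool.Agent.J6H68.RF.Chk
import Pool.Agent.J6H21.RF.All
import Pool.Agent.J6H1.RFN.Fp
import Pool.Agent.J6H22.RFN.Ps
import Pool.Agent.J6H63.RFN.Th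
import Pool.Agent.J6H68.RFN.Q

/-!
# Project RF: assembly
-/

set_option autoImplicit false

namespace Pool.Agent.J6H17.RF

open Pool.Agent.NPC Pool.Agent.H628R3.RO
open Pool.Agent.H620R2.Gauge (IsPSPACE)

theorem s_log : S_LOG := J6H1.RF.main
theorem s_num : S_NUM := J6H42.RF.main
theorem s_spoly : S_SPOLY := J6H97.RFSpoly.main
theorem s_opc : S_OPC := Opc.main
theorem s_chk : S_CHK := J6H68.RF.Chk.main s_opc J6H21.RF.main

/-- The question has a positive answer relative to every oracle for which no set that is hard for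
`NP` has a `p`-optimal proof system. -/
theorem all_fin (A : Oracle)
    (hA : ∀ (L : Set (List Bool)) (P : List Bool → List Bool), NPHardRel A L →
      ¬ IsPOptimal A L P) : Question A :=
  fin s_log (J6H8.RF.Asmc.main s_log J6H22.RF.main) s_num s_spoly
    (J6H57.RF.main s_num s_spoly) s_opc s_chk (J6H80.RF.main s_num)
    (J6H27.RF.Tg.main s_num s_spoly s_opc) (J6H86.RF.main s_log) A hA

/-- The question has a negative answer relative to every oracle for which all nonempty problems in
polynomial space have `p`-optimal proof systems. -/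
theorem all_finN (A : Oracle)
    (hA : ∀ L : Set (List Bool), IsPSPACE A L → L.Nonempty → ∃ P, IsPOptimal A L P) :
    NegQuestion A :=
  finN s_log (J6H22.RFN.main s_num s_spoly s_chk) (J6H68.RFN.Q.main s_num s_spoly s_log)
    (J6H63.RFN.Th.main s_num s_spoly s_opc) (J6H1.RFN.main s_num s_spoly) A hA

end Pool.Agent.J6H17.RF
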