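import Pool.Agent.H628R3.RO.Defs

/-!
# Theories of bounded arithmetic relative to an oracle, proofs, finite reflection: definitions

The language of bounded arithmetic with a predicate for the oracle, a Hilbert calculus, theories whose
axioms are decidable in polynomial time relative to the oracle, numerals, formalizations of the proof
predicate, the sentences of finite reflection.
-/

set_option autoImplicit false

namespace Pool.Agent.J6H17.RF

open Pool.Agent.NPC Pool.Agent.H628R3.RO

/-! ### Syntax -/

/-- The terms of the language of bounded arithmetic: variables, `0`, `t + 1`, `⌊t / 2⌋`, `|t|`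
(the number of binary digits), `s + t`, `s · t`, `s # t`. -/
inductive Tm : Type
  | var (i : ℕ) : Tm
  | zero : Tm
  | succ (t : Tm) : Tm
  | half (t : Tm) : Tm
  | len (t : Tm) : Tm
  | add (s t : Tm) : Tm
  | mul (s t : Tm) : Tm
  | smash (s t : Tm) : Tm

/-- The formulas; the atomic formulas are `⊥`, `s = t`, `s ≤ t` and `orc t`, which says that the
string with the number `t` belongs to the oracle. -/
inductive Fm : Type
  | bot : Fm
  | eq (s t : Tm) : Fm
  | le (s t : Tm) : Fm
  | orc (t : Tm) : Fm
  | imp (φ ψ : Fm) : Fm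
  | all (x : ℕ) (φ : Fm) : Fm

/-- The tree coding a term. -/
def Tm.code : Tm → T
  | .var i => T.node (toT (1 : ℕ)) (toT i)
  | .zero => T.nil
  | .succ t => T.node (toT (2 : ℕ)) t.code
  | .half t => T.node (toT (3 : ℕ)) t.code
  | .len t => T.node (toT (4 : ℕ)) t.code
  | .add s t => T.node (toT (5 : ℕ)) (T.node s.code t.code)
  | .mul s t => T.node (toT (6 : ℕ)) (T.node s.code t.code)
  | .smash s t => T.node (toT (7 : ℕ)) (T.node s.code t.code)

/-- The tree coding a formula. -/
def Fm.code : Fm → T
  | .bot => T.nil
  | .eq s t => T.node (toT (1 : ℕ)) (T.node s.code t.code)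
  | .le s t => T.node (toT (2 : ℕ)) (T.node s.code t.code)
  | .orc t => T.node (toT (3 : ℕ)) t.code
  | .imp φ ψ => T.node (toT (4 : ℕ)) (T.node φ.code ψ.code)
  | .all x φ => T.node (toT (5 : ℕ)) (T.node (toT x) φ.code)

theorem tag_inj {m n : ℕ} (h : (toT m : T) = toT n) : m = n := TEnc.inj h

theorem Tm.code_injective : Function.Injective Tm.code := by
  intro s
  induction s with
  | var i =>
    intro t h
    cases t <;> simp only [Tm.code, T.node.injEq, reduceCtorEq] at h <;>
      first
        | exact absurd (tag_inj h.1) (by decide)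
        | exact congrArg Tm.var (TEnc.inj h.2)
  | zero =>
    intro t h
    cases t <;> simp only [Tm.code, reduceCtorEq] at h
    rfl
  | succ s ih =>
    intro t h
    cases t <;> simp only [Tm.code, T.node.injEq, reduceCtorEq] at h <;>
      first
        | exact absurd (tag_inj h.1) (by decide)
        | exact congrArg Tm.succ (ih h.2)
  | half s ih =>
    intro t h
    cases t <;> simp only [Tm.code, T.node.injEq, reduceCtorEq] at h <;>
      first
        | exact absurd (tag_inj h.1) (by decide)
        | exact congrArg Tm.half (ih h.2)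
  | len s ih =>
    intro t h
    cases t <;> simp only [Tm.code, T.node.injEq, reduceCtorEq] at h <;>
      first
        | exact absurd (tag_inj h.1) (by decide)
        | exact congrArg Tm.len (ih h.2)
  | add s s' ih ih' =>
    intro t h
    cases t <;> simp only [Tm.code, T.node.injEq, reduceCtorEq] at h <;>
      first
        | exact absurd (tag_inj h.1) (by decide)
        | exact congrArg₂ Tm.add (ih h.2.1) (ih' h.2.2)
  | mul s s' ih ih' =>
    intro t h
    cases t <;> simp only [Tm.code, T.node.injEq, reduceCtorEq] at h <;>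
      first
        | exact absurd (tag_inj h.1) (by decide)
        | exact congrArg₂ Tm.mul (ih h.2.1) (ih' h.2.2)
  | smash s s' ih ih' =>
    intro t h
    cases t <;> simp only [Tm.code, T.node.injEq, reduceCtorEq] at h <;>
      first
        | exact absurd (tag_inj h.1) (by decide)
        | exact congrArg₂ Tm.smash (ih h.2.1) (ih' h.2.2)

theorem Fm.code_injective : Function.Injective Fm.code := by
  intro s
  induction s with
  | bot =>
    intro t h
    cases t <;> simp only [Fm.code, reduceCtorEq] at h
    rfl
  | eq a b =>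
    intro t h
    cases t <;> simp only [Fm.code, T.node.injEq, reduceCtorEq] at h <;>
      first
        | exact absurd (tag_inj h.1) (by decide)
        | exact congrArg₂ Fm.eq (Tm.code_injective h.2.1) (Tm.code_injective h.2.2)
  | le a b =>
    intro t h
    cases t <;> simp only [Fm.code, T.node.injEq, reduceCtorEq] at h <;>
      first
        | exact absurd (tag_inj h.1) (by decide)
        | exact congrArg₂ Fm.le (Tm.code_injective h.2.1) (Tm.code_injective h.2.2)
  | orc a =>
    intro t h
    cases t <;> simp only [Fm.code, T.node.injEq, reduceCtorEq] at h <;>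
      first
        | exact absurd (tag_inj h.1) (by decide)
        | exact congrArg Fm.orc (Tm.code_injective h.2)
  | imp a b iha ihb =>
    intro t h
    cases t <;> simp only [Fm.code, T.node.injEq, reduceCtorEq] at h <;>
      first
        | exact absurd (tag_inj h.1) (by decide)
        | exact congrArg₂ Fm.imp (iha h.2.1) (ihb h.2.2)
  | all x a ih =>
    intro t h
    cases t <;> simp only [Fm.code, T.node.injEq, reduceCtorEq] at h <;>
      first
        | exact absurd (tag_inj h.1) (by decide)
        | exact congrArg₂ Fm.all (TEnc.inj h.2.1) (ih h.2.2)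

instance : TEnc Tm := ⟨Tm.code, Tm.code_injective⟩

instance : TEnc Fm := ⟨Fm.code, Fm.code_injective⟩

/-- The negation. -/
def Fm.neg (φ : Fm) : Fm := φ.imp .bot

/-- The variable `x` occurs in the term. -/
def Tm.Occ (x : ℕ) : Tm → Prop
  | .var i => i = x
  | .zero => False
  | .succ t => t.Occ x
  | .half t => t.Occ x
  | .len t => t.Occ x
  | .add s t => s.Occ x ∨ t.Occ x
  | .mul s t => s.Occ x ∨ t.Occ x
  | .smash s t => s.Occ x ∨ t.Occ x

/-- The variable `x` is free in the formula. -/
def Fm.Free (x : ℕ) : Fm → Prop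
  | .bot => False
  | .eq s t => s.Occ x ∨ t.Occ x
  | .le s t => s.Occ x ∨ t.Occ x
  | .orc t => t.Occ x
  | .imp φ ψ => φ.Free x ∨ ψ.Free x
  | .all y φ => y ≠ x ∧ φ.Free x

/-- Replace every variable `i` by the term `σ i`. -/
def Tm.sub (σ : ℕ → Tm) : Tm → Tm
  | .var i => σ i
  | .zero => .zero
  | .succ t => .succ (t.sub σ)
  | .half t => .half (t.sub σ)
  | .len t => .len (t.sub σ)
  | .add s t => .add (s.sub σ) (t.sub σ)
  | .mul s t => .mul (s.sub σ) (t.sub σ)
  | .smash s t => .smash (s.sub σ) (t.sub σ)

/-- Replace the free occurrences of every variable `i` by the term `σ i`. -/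
def Fm.sub (σ : ℕ → Tm) : Fm → Fm
  | .bot => .bot
  | .eq s t => .eq (s.sub σ) (t.sub σ)
  | .le s t => .le (s.sub σ) (t.sub σ)
  | .orc t => .orc (t.sub σ)
  | .imp φ ψ => .imp (φ.sub σ) (ψ.sub σ)
  | .all x φ => .all x (φ.sub (Function.update σ x (Tm.var x)))

/-- `φ (t / x)`: replace the free occurrences of the variable `x` by `t`. -/
def Fm.sub1 (φ : Fm) (x : ℕ) (t : Tm) : Fm := φ.sub (Function.update Tm.var x t)

/-- The term `t` is free for the variable `x` in the formula: no variable of `t` becomes bound. -/
def Fm.FreeFor (x : ℕ) (t : Tm) : Fm → Prop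
  | .imp φ ψ => φ.FreeFor x t ∧ ψ.FreeFor x t
  | .all y φ => y = x ∨ ¬ φ.Free x ∨ (¬ t.Occ y ∧ φ.FreeFor x t)
  | _ => True

/-- The atomic formulas. -/
def Fm.Atomic : Fm → Prop
  | .imp _ _ => False
  | .all _ _ => False
  | _ => True

/-! ### Proofs -/

/-- The logical axioms. -/
inductive LogAx : Fm → Prop
  | k (φ ψ : Fm) : LogAx (φ.imp (ψ.imp φ))
  | s (φ ψ χ : Fm) : LogAx ((φ.imp (ψ.imp χ)).imp ((φ.imp ψ).imp (φ.imp χ)))
  | dn (φ : Fm) : LogAx (φ.neg.neg.imp φ)
  | inst (x : ℕ) (t : Tm) (φ : Fm) : φ.FreeFor x t → LogAx ((Fm.all x φ).imp (φ.sub1 x t))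
  | dist (x : ℕ) (φ ψ : Fm) : ¬ φ.Free x →
      LogAx ((Fm.all x (φ.imp ψ)).imp (φ.imp (Fm.all x ψ)))
  | refl (t : Tm) : LogAx (.eq t t)
  | cong (x : ℕ) (s t : Tm) (φ : Fm) : φ.Atomic →
      LogAx ((Fm.eq s t).imp ((φ.sub1 x s).imp (φ.sub1 x t)))

/-- The list is a proof from the axioms `Γ`; the last line of the proof is the first member of the
list. The rules are modus ponens and generalization. -/
def IsProof (Γ : Set Fm) : List Fm → Prop
  | [] => True
  | φ :: π => IsProof Γ π ∧ (φ ∈ Γ ∨ (∃ ψ ∈ π, ψ.imp φ ∈ π) ∨ ∃ ψ ∈ π, ∃ x, φ = Fm.all x ψ)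

/-- The formula has a proof from the axioms `Γ`. -/
def Proves (Γ : Set Fm) (φ : Fm) : Prop := ∃ π, IsProof Γ (φ :: π)

/-- There is no proof of a contradiction. -/
def Consistent (Γ : Set Fm) : Prop := ¬ Proves Γ .bot

/-- A theory relative to the oracle `A`: a set of axioms, among them the logical ones, that is
decidable in polynomial time relative to `A`. -/
def Theory (A : Oracle) (Γ : Set Fm) : Prop :=
  (∀ φ, LogAx φ → φ ∈ Γ) ∧
    ∃ D : List Bool → List Bool, IsFP A D ∧ ∀ y, D y = [true] ↔ ∃ φ ∈ Γ, bits φ = y

/-! ### Numerals -/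

/-- The term `2`. -/
def two : Tm := .succ (.succ .zero)

/-- The binary numeral of `n`: `0`, `2 · t` or `(2 · t) + 1`. -/
def num (n : ℕ) : Tm :=
  n.bits.foldr (fun b t => if b then .succ (.mul two t) else .mul two t) .zero

/-- The number of a bit string `w`: its binary digits are those of `w`, followed by a leading digit
`1`. -/
def codeN (w : List Bool) : ℕ := w.foldr (fun b n => Nat.bit b n) 1

/-- The sentence `φ (e, x, z)`, where `e`, `x`, `z` are the variables `0`, `2`, `3`. -/
def at3 (φ : Fm) (e x z : ℕ) : Fm :=
  φ.sub (fun i => if i = 0 then num e else if i = 2 then num x else if i = 3 then num z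
    else Tm.var i)

/-- The sentence `φ (e, u, x, z)`, where `e`, `u`, `x`, `z` are the variables `0`, `1`, `2`, `3`. -/
def at4 (φ : Fm) (e u x z : ℕ) : Fm :=
  φ.sub (fun i => if i = 0 then num e else if i = 1 then num u else if i = 2 then num x
    else if i = 3 then num z else Tm.var i)

/-- The sentence `|a| ≤ n`. -/
def lenLe (a n : ℕ) : Fm := .le (.len (num a)) (num n)

/-! ### Formalized provability and reflection -/

/-- `u` is the number of a proof of the sentence `μ (e, x, z)` from `Γ`. -/
def PrRel (μ : Fm) (Γ : Set Fm) (e u x z : ℕ) : Prop :=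
  ∃ π : List Fm, IsProof Γ (at3 μ e x z :: π) ∧ u = codeN (bits (at3 μ e x z :: π))

/-- The formula `Pr (e, u, x, z)` formalizes in the base theory `B` that `u` is a proof of
`μ (e, x, z)` from `Γ`: proofs in `B` of the true sentences `Pr (e, u, x, z)` can be constructed in
polynomial time relative to `A`, and `B` refutes the false ones. -/
structure Formalizes (A : Oracle) (B : Set Fm) (μ : Fm) (Γ : Set Fm) (Pr : Fm) : Prop where
  free : ∀ i, Pr.Free i → i < 4
  pos : ∃ F : List Bool → List Bool, IsFP A F ∧ ∀ e u x z, PrRel μ Γ e u x z →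
    ∃ π : List Fm, F (bits (e, u, x, z)) = bits (at4 Pr e u x z :: π) ∧
      IsProof B (at4 Pr e u x z :: π)
  neg : ∀ e u x z, ¬ PrRel μ Γ e u x z → Proves B (at4 Pr e u x z).neg

/-- The sentence of finite uniform reflection: for all `e`, `u`, `x`, `z` whose length is at most
`n`, if `Pr (e, u, x, z)` then `μ (e, x, z)`. -/
def rfn (Pr μ : Fm) (n : ℕ) : Fm :=
  .all 0 (.all 1 (.all 2 (.all 3
    (.imp (.le (.len (.var 0)) (num n)) (.imp (.le (.len (.var 1)) (num n))
      (.imp (.le (.len (.var 2)) (num n)) (.imp (.le (.len (.var 3)) (num n))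
        (.imp Pr μ))))))))

/-- Proofs of the sentences of finite reflection in `S` can be constructed in polynomial time in
`n`, relative to `A`. -/
def Constructible (A : Oracle) (S : Set Fm) (Pr μ : Fm) : Prop :=
  ∃ F : List Bool → List Bool, IsFP A F ∧ ∀ n : ℕ, ∃ π : List Fm,
    F (List.replicate n true) = bits (rfn Pr μ n :: π) ∧ IsProof S (rfn Pr μ n :: π)

/-- `B` is a base theory and `μ` a universal formula, relative to the oracle `A`. -/
structure Base (A : Oracle) (B : Set Fm) (μ : Fm) : Prop where
  /-- the axioms of `B` are decidable in polynomial time relative to `A` -/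
  theory : Theory A B
  consistent : Consistent B
  free : ∀ i, μ.Free i → i = 0 ∨ i = 2 ∨ i = 3
  /-- `B` decides the sentences `μ (e, x, z)` -/
  decides : ∀ e x z, Proves B (at3 μ e x z) ∨ Proves B (at3 μ e x z).neg
  /-- `μ` is universal for `NP` relative to `A` -/
  univ : ∀ L : Set (List Bool), IsNP A L → ∃ (e : ℕ) (p : Polynomial ℕ),
    ∀ (x : List Bool) (z : ℕ), p.eval x.length ≤ z.size →
      (x ∈ L ↔ Proves B (at3 μ e (codeN x) z))
  /-- proofs in `B` of the true sentences `|a| ≤ n` can be constructed in polynomial time -/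
  len : ∃ F : List Bool → List Bool, IsFP A F ∧ ∀ a n : ℕ, a.size ≤ n →
    ∃ π : List Fm, F (pairBits (bits a) (List.replicate n true)) = bits (lenLe a n :: π) ∧
      IsProof B (lenLe a n :: π)
  /-- the proof predicates of all theories can be formalized in `B` -/
  formal : ∀ Γ : Set Fm, Theory A Γ → ∃ Pr, Formalizes A B μ Γ Pr

/-- The statement of the question, relative to the oracle `A`: for every consistent theory `S`
containing the base theory there is such a theory `T` for which the proofs in `S` of the finite
reflection sentences cannot be constructed in polynomial time. Moreover, `T` can be chosen as another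
axiomatization of the base theory: it has the same theorems. -/
def Question (A : Oracle) : Prop :=
  ∀ (B : Set Fm) (μ : Fm), Base A B μ →
    ∀ S : Set Fm, Theory A S → B ⊆ S → Consistent S →
      ∃ T : Set Fm, Theory A T ∧ B ⊆ T ∧ Consistent T ∧ (∀ φ, Proves T φ ↔ Proves B φ) ∧
        ∀ Pr : Fm, Formalizes A B μ T Pr → ¬ Constructible A S Pr μ

end Pool.Agent.J6H17.RF
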