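import Pool.Agent.J6H17.RF.Defs
import Pool.Agent.H620R2.Gauge.Defs

/-!
# Constructible proofs of finite reflection: definitions for the negative answer
-/

set_option autoImplicit false

namespace Pool.Agent.J6H17.RF

open Pool.Agent.NPC Pool.Agent.H628R3.RO

/-- The sentence `φ (e, u, x, z)`, written with quantifiers: for all `v₀ = e`, `v₁ = u`, `v₂ = x`,
`v₃ = z`, `φ`. -/
def in4 (φ : Fm) (e u x z : ℕ) : Fm :=
  .all 0 (.imp (.eq (.var 0) (num e)) (.all 1 (.imp (.eq (.var 1) (num u))
    (.all 2 (.imp (.eq (.var 2) (num x)) (.all 3 (.imp (.eq (.var 3) (num z)) φ)))))))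

/-- The formula `Pr` is a formalization of the proof predicate of `Γ` for which the false instances
have refutations of polynomial length. -/
structure FormalizesD (A : Oracle) (B : Set Fm) (μ : Fm) (Γ : Set Fm) (Pr : Fm) : Prop extends
    Formalizes A B μ Γ Pr where
  short : ∃ p : Polynomial ℕ, ∀ e u x z, ¬ PrRel μ Γ e u x z → ∃ π : List Fm,
    IsProof B ((in4 Pr e u x z).neg :: π) ∧
      (bits ((in4 Pr e u x z).neg :: π)).length ≤ p.eval (e.size + u.size + x.size + z.size)

/-- A base theory that proves the true sentences `μ (e, x, z)` in polynomial length, and the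
sentences of finite reflection all of whose instances it proves; and all proof predicates can be
formalized with short refutations. -/
structure BaseD (A : Oracle) (B : Set Fm) (μ : Fm) : Prop extends Base A B μ where
  short : ∃ p : Polynomial ℕ, ∀ e x z, Proves B (at3 μ e x z) → ∃ π : List Fm,
    IsProof B (at3 μ e x z :: π) ∧
      (bits (at3 μ e x z :: π)).length ≤ p.eval (e.size + x.size + z.size)
  bounded : ∀ (Pr : Fm) (n : ℕ), (∀ e u x z : ℕ, e.size ≤ n → u.size ≤ n → x.size ≤ n →
    z.size ≤ n → Proves B ((in4 Pr e u x z).imp (at3 μ e x z))) → Proves B (rfn Pr μ n)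
  formalD : ∀ Γ : Set Fm, Theory A Γ → ∃ Pr, FormalizesD A B μ Γ Pr

/-- The negation of the statement of the question, relative to the oracle `A`: for every base theory
there is a consistent theory `S` containing it in which, for every such theory `T`, proofs of the finite
reflection sentences can be constructed in polynomial time. -/
def NegQuestion (A : Oracle) : Prop :=
  ∀ (B : Set Fm) (μ : Fm), BaseD A B μ →
    ∃ S : Set Fm, Theory A S ∧ B ⊆ S ∧ Consistent S ∧
      ∀ T : Set Fm, Theory A T → B ⊆ T → Consistent T →
        ∀ Pr : Fm, FormalizesD A B μ T Pr → Constructible A S Pr μ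

end Pool.Agent.J6H17.RF
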