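import Pool.Agent.J6H17.RF.All

/-!
# Lengths of proofs of finite consistency relative to an oracle
-/

set_option autoImplicit false

namespace Pool.Agent.J6H17.RF

open Pool.Agent.NPC Pool.Agent.H628R3.RO

/-- The formula has a proof from `Γ` whose string has length at most `m`. -/
def ProvesIn (Γ : Set Fm) (m : ℕ) (φ : Fm) : Prop :=
  ∃ π : List Fm, IsProof Γ (φ :: π) ∧ (bits (φ :: π)).length ≤ m

/-- The sentence `φ (n)`, where `φ` has the free variable `0`. -/
def at1 (φ : Fm) (n : ℕ) : Fm := φ.sub1 0 (num n)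

/-- The formula `Cn (n)` formalizes in the base theory `B` that there is no contradiction of length at
most `n` in `Γ`: `B` decides the sentences `Cn (n)` correctly, and from a proof of `¬ μ (e, x, z)` in
`Γ` of length at most `m` one gets a proof in `B` of `Cn (q m) → ¬ μ (e, x, z)` of length at most
`p m`, for some polynomials `p`, `q` (the `Σ₁ᵇ` completeness, formalized). -/
structure FinCon (B : Set Fm) (μ : Fm) (Γ : Set Fm) (Cn : Fm) : Prop where
  free : ∀ i, Cn.Free i → i = 0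
  pos : ∀ n, ¬ ProvesIn Γ n .bot → Proves B (at1 Cn n)
  neg : ∀ n, ProvesIn Γ n .bot → Proves B (at1 Cn n).neg
  compl : ∃ p q : Polynomial ℕ, ∀ e x z m : ℕ, ProvesIn Γ m (at3 μ e x z).neg →
    ProvesIn B (p.eval m) ((at1 Cn (q.eval m)).imp (at3 μ e x z).neg)

/-- `B` is a base theory and `μ` a universal formula, relative to the oracle `A`. -/
structure BaseC (A : Oracle) (B : Set Fm) (μ : Fm) : Prop where
  /-- the axioms of `B` are decidable in polynomial time relative to `A` -/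
  theory : Theory A B
  consistent : Consistent B
  free : ∀ i, μ.Free i → i = 0 ∨ i = 2 ∨ i = 3
  /-- `B` decides the sentences `μ (e, x, z)` -/
  decides : ∀ e x z, Proves B (at3 μ e x z) ∨ Proves B (at3 μ e x z).neg
  /-- `μ` is universal for `NP` relative to `A` -/
  univ : ∀ L : Set (List Bool), IsNP A L → ∃ (e : ℕ) (p : Polynomial ℕ),
    ∀ (x : List Bool) (z : ℕ), p.eval x.length ≤ z.size →
      (x ∈ L ↔ Proves B (at3 μ e (codeN x) z))
  /-- finite consistency of all theories can be formalized in `B` -/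
  formal : ∀ Γ : Set Fm, Theory A Γ → B ⊆ Γ → ∃ Cn, FinCon B μ Γ Cn

theorem at3_neg (μ : Fm) (e x z : ℕ) : at3 μ.neg e x z = (at3 μ e x z).neg := rfl

theorem not_both {B : Set Fm} (hL : S_LOG) (hc : Consistent B) {φ : Fm} (h1 : Proves B φ)
    (h2 : Proves B φ.neg) : False := by
  obtain ⟨π, hπ⟩ := h1
  obtain ⟨ρ, hρ⟩ := h2
  exact hc ⟨_, hL.2.1 B _ _ _ _ hρ hπ⟩

theorem hardC {A : Oracle} {B : Set Fm} {μ : Fm} (hB : BaseC A B μ) :
    CoNPHardRel A (K B μ.neg) := by
  intro L hL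
  obtain ⟨e, p, hp⟩ := hB.univ Lᶜ hL
  obtain ⟨-, hc, hbits⟩ := s_num
  let f : List Bool → ℕ × ℕ × ℕ := fun w =>
    (e, codeN w, codeN (List.replicate (p.eval w.length) true))
  have hf : Poly f := NPC.Poly.pair (NPC.Poly.const e)
    (NPC.Poly.pair hc (hc.comp (J6H80.RF.poly_pad p)))
  refine ⟨fun w => bits (f w), IsFP.of_poly (poly_bits hf), fun w => ?_⟩
  have hz : p.eval w.length ≤ (codeN (List.replicate (p.eval w.length) true)).size := by
    rw [← Nat.size_eq_bits_len, hbits]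
    simp
  have h0 := hp w _ hz
  rw [Set.mem_compl_iff] at h0
  have h1 : w ∈ L ↔ Proves B (at3 μ.neg e (codeN w)
      (codeN (List.replicate (p.eval w.length) true))) := by
    rw [at3_neg]
    constructor
    · intro hw
      rcases hB.decides e (codeN w) (codeN (List.replicate (p.eval w.length) true)) with h | h
      · exact absurd hw (h0.2 h)
      · exact h
    · intro h
      by_contra hw
      exact not_both s_log hB.consistent (h0.1 hw) h
  rw [h1]
  constructor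
  · intro h1
    exact ⟨e, codeN w, codeN (List.replicate (p.eval w.length) true), rfl, h1⟩
  · rintro ⟨e', x', z', h1, h2⟩
    have h3 : f w = (e', x', z') := J6H80.RF.bits_inj h1
    simp only [f, Prod.mk.injEq] at h3
    obtain ⟨rfl, rfl, rfl⟩ := h3
    exact h2

theorem exists_memC {A : Oracle} {B : Set Fm} {μ : Fm} (hB : BaseC A B μ) :
    ∃ v, v ∈ K B μ.neg := by
  have h : IsNP A ∅ := by
    refine ⟨fun _ => [], 0, IsFP.of_poly (NPC.Poly.const _), fun x => ?_⟩
    simp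
  obtain ⟨e, p, hp⟩ := hB.univ _ h
  have h1 := hp [] (2 ^ (p.eval 0)) (by
    rw [Nat.size_pow]
    simp)
  rcases hB.decides e (codeN []) (2 ^ (p.eval 0)) with h2 | h2
  · exact absurd (h1.2 h2) (Set.notMem_empty _)
  · exact ⟨_, e, _, _, rfl, h2⟩

theorem range_sysPC {A : Oracle} {B : Set Fm} {μ : Fm} (hB : BaseC A B μ) {S : Set Fm}
    (hBS : B ⊆ S) (hcS : Consistent S) {C : List Bool → List Bool}
    (hC : ∀ y, C y = [true] ↔ ∃ π : List Fm, bits π = y ∧ IsProof S π) {v₀ : List Bool}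
    (hv₀ : v₀ ∈ K B μ.neg) : Set.range (sysP C μ.neg v₀) = K B μ.neg := by
  ext v
  constructor
  · rintro ⟨y, rfl⟩
    unfold sysP
    split_ifs with h
    · obtain ⟨π, h1, h2⟩ := (hC _).1 h.1
      have h3 := h.2
      rw [← h1] at h3
      obtain ⟨e, x, z, π', h4, h5⟩ := test_iff.1 h3
      refine ⟨e, x, z, h4, ?_⟩
      rcases hB.decides e x z with ⟨ρ, hρ⟩ | h6
      · exfalso
        rw [h5] at h2
        exact not_both s_log hcS ⟨ρ, s_log.2.2.1 B S _ hBS hρ⟩ ⟨π', h2⟩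
      · exact h6
    · exact hv₀
  · rintro ⟨e, x, z, rfl, π, hπ⟩
    refine ⟨pairBits (bits (e, x, z)) (bits (at3 μ.neg e x z :: π)), ?_⟩
    unfold sysP
    rw [unpair_pairBits]
    rw [if_pos]
    exact ⟨(hC _).2 ⟨_, rfl, s_log.2.2.1 B S _ hBS hπ⟩, test_iff.2 ⟨e, x, z, π, rfl, rfl⟩⟩

theorem poly_lines (μ : Fm) :
    Poly (fun a : List Bool × ℕ × ℕ × ℕ => bits (lines μ a.1 a.2.1 a.2.2.1 a.2.2.2)) := by
  have h3 : Poly (fun a : List Bool × ℕ × ℕ × ℕ => at3 μ a.2.1 a.2.2.1 a.2.2.2) :=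
    poly_at3 s_num s_spoly μ (Poly.fst (Poly.snd Poly.id)) (Poly.fst (Poly.snd (Poly.snd Poly.id)))
      (Poly.snd (Poly.snd (Poly.snd Poly.id)))
  have hv : Poly (fun a : List Bool × ℕ × ℕ × ℕ => Tm.var (codeN a.1)) :=
    s_spoly.2.2.2.2.2.2 _ _ (s_num.2.1.comp (Poly.fst Poly.id))
  have he : Poly (fun a : List Bool × ℕ × ℕ × ℕ =>
      Fm.eq (.var (codeN a.1)) (.var (codeN a.1))) := s_spoly.2.2.2.1 _ _ _ hv hv
  have hx : Poly (fun a : List Bool × ℕ × ℕ × ℕ => axm μ a.1 a.2.1 a.2.2.1 a.2.2.2) :=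
    s_spoly.2.1 _ _ _ he h3
  exact poly_bits (Poly.cons h3 (Poly.cons hx (Poly.cons he (NPC.Poly.const []))))

/-- The nonuniform finite consistency conjecture holds relative to every oracle for which no set that
is hard for `coNP` has an optimal proof system. -/
theorem con_fin (A : Oracle)
    (hA : ∀ L : Set (List Bool), CoNPHardRel A L → ¬ ∃ P, IsOptimal A L P) (B : Set Fm) (μ : Fm)
    (hB : BaseC A B μ) (S : Set Fm) (hS : Theory A S) (hBS : B ⊆ S) (hcS : Consistent S) :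
    ∃ T : Set Fm, Theory A T ∧ B ⊆ T ∧ Consistent T ∧ (∀ φ, Proves T φ ↔ Proves B φ) ∧
      ∀ Cn : Fm, FinCon B μ T Cn → ¬ ∃ p : Polynomial ℕ, ∀ n, ProvesIn S (p.eval n) (at1 Cn n) := by
  by_contra hcon
  push Not at hcon
  obtain ⟨C, hCf, hCC⟩ := s_chk A S hS
  obtain ⟨v₀, hv₀⟩ := exists_memC hB
  have hrange := range_sysPC hB hBS hcS hCC hv₀
  refine hA _ (hardC hB) ⟨sysP C μ.neg v₀, ⟨isFP_sysP s_num s_spoly hCf μ.neg v₀, hrange⟩, ?_⟩
  rintro Q ⟨hQ, hQr⟩
  have hQK : ∀ (w : List Bool) (e x z : ℕ), Q w = bits (e, x, z) →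
      Proves B (at3 μ.neg e x z) := by
    intro w e x z hw
    have h1 : Q w ∈ K B μ.neg := by
      rw [← hQr]
      exact ⟨w, rfl⟩
    obtain ⟨e', x', z', h2, h3⟩ := h1
    rw [hw] at h2
    have h4 := bits_injective h2
    simp only [Prod.mk.injEq] at h4
    obtain ⟨rfl, rfl, rfl⟩ := h4
    exact h3
  obtain ⟨hc1, hc2⟩ := J6H86.RF.main s_log B μ.neg Q hB.theory.1
  have hax : ∀ ψ ∈ TG B μ.neg Q, Proves B ψ := by
    rintro ψ (h | ⟨w, e, x, z, hw, rfl⟩)
    · exact ⟨[], trivial, Or.inl h⟩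
    · obtain ⟨π, hπ⟩ := hQK w e x z hw
      have hk : IsProof B [(at3 μ.neg e x z).imp (axm μ.neg w e x z)] :=
        ⟨trivial, Or.inl (hB.theory.1 _ (LogAx.k _ _))⟩
      exact ⟨_, s_log.2.1 B _ _ _ _ hk hπ⟩
  obtain ⟨Cn, hCn, p', hp'⟩ := hcon (TG B μ.neg Q)
    (J6H27.RF.Tg.main s_num s_spoly s_opc A B μ.neg Q hB.theory hQ)
    Set.subset_union_left (hc1 hQK hB.consistent) (fun φ => ⟨s_log.2.2.2 B _ φ hax,
      fun ⟨π, hπ⟩ => ⟨π, s_log.2.2.1 B _ _ Set.subset_union_left hπ⟩⟩)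
  obtain ⟨p, q, hpq⟩ := hCn.compl
  obtain ⟨b, hb⟩ := IsFP.length_le hQ
  obtain ⟨r₁, hr₁⟩ := (poly_lines μ.neg).sz_le
  set r : Polynomial ℕ := r₁.comp (Polynomial.C 4 * Polynomial.X + b + Polynomial.C 2) with hr
  refine ⟨Polynomial.C 2 * b + Polynomial.C 3 + r + p.comp r + p'.comp (q.comp r), fun w => ?_⟩
  have h1 : Q w ∈ K B μ.neg := by
    rw [← hQr]
    exact ⟨w, rfl⟩
  obtain ⟨e, x, z, h2, -⟩ := h1
  set m := (bits (lines μ.neg w e x z)).length with hm
  have hmr : m ≤ r.eval w.length := by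
    have h3 := hr₁ (w, e, x, z)
    have h4 := sz_listBool_ge (bits (lines μ.neg w e x z))
    have h5 : sz (w, e, x, z) ≤ 4 * w.length + b.eval w.length + 2 := by
      have h6 : sz (w, e, x, z) = sz w + sz (e, x, z) + 1 := by
        rw [sz_pair]
      have h7 : sz (e, x, z) = (Q w).length := by rw [h2]; exact bits_length _
      have h8 := hb w
      have h9 := sz_listBool_le w
      omega
    have h6 := eval_mono r₁ h5
    rw [hr, Polynomial.eval_comp]
    simp only [Polynomial.eval_add, Polynomial.eval_mul, Polynomial.eval_C, Polynomial.eval_X]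
    simp only at h3
    omega
  obtain ⟨π₁, hπ₁, hl₁⟩ := hpq e x z m ⟨_, hc2 w e x z h2, le_rfl⟩
  obtain ⟨π₂, hπ₂, hl₂⟩ := hp' (q.eval m)
  have hfin := s_log.2.1 S _ _ _ _ (s_log.2.2.1 B S _ hBS hπ₁) hπ₂
  refine ⟨pairBits (Q w) (bits ((at3 μ e x z).neg ::
    (((at1 Cn (q.eval m)).imp (at3 μ e x z).neg :: π₁) ++ (at1 Cn (q.eval m) :: π₂)))), ?_, ?_⟩
  · unfold sysP
    rw [unpair_pairBits, if_pos]
    exact ⟨(hCC _).2 ⟨_, rfl, hfin⟩, test_iff.2 ⟨e, x, z, _, h2, rfl⟩⟩
  · rw [Pool.Agent.H628R3.RO.length_pairBits]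
    have k1 : (bits ((at3 μ e x z).neg :: (((at1 Cn (q.eval m)).imp (at3 μ e x z).neg :: π₁) ++
        (at1 Cn (q.eval m) :: π₂)))).length + 1 =
        sz (at3 μ e x z).neg + 1 + (bits ((at1 Cn (q.eval m)).imp (at3 μ e x z).neg :: π₁)).length +
          (bits (at1 Cn (q.eval m) :: π₂)).length := by
      rw [bits_length, bits_length, bits_length, sz_list_cons]
      have := sz_append ((at1 Cn (q.eval m)).imp (at3 μ e x z).neg :: π₁)
        (at1 Cn (q.eval m) :: π₂)
      omega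
    have k2 : sz (at3 μ e x z).neg < m := by
      rw [hm, bits_length]
      exact sz_le_of_mem (a := (at3 μ e x z).neg) (l := lines μ.neg w e x z) List.mem_cons_self
    have k3 := eval_mono p hmr
    have k4 := eval_mono p' (eval_mono q hmr)
    have k5 := hb w
    simp only [Polynomial.eval_add, Polynomial.eval_mul, Polynomial.eval_C, Polynomial.eval_comp]
    omega

end Pool.Agent.J6H17.RF
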