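import Pool.Agent.J6H17.RF.FCon
import Pool.Agent.J6H54.RO.FinT

/-!
# Exponential lower bounds for the lengths of proofs of finite consistency relative to an oracle
-/

set_option autoImplicit false

namespace Pool.Agent.J6H17.RF

open Pool.Agent.NPC Pool.Agent.H628R3.RO

theorem eval_le_pow_self (P : Polynomial ℕ) : ∃ d : ℕ, ∀ x, 2 ≤ x → P.eval x ≤ x ^ d := by
  induction P using Polynomial.induction_on' with
  | add p q hp hq =>
    obtain ⟨d, hd⟩ := hp
    obtain ⟨e, he⟩ := hq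
    refine ⟨max d e + 1, fun x hx => ?_⟩
    rw [Polynomial.eval_add, pow_succ]
    have h1 := (hd x hx).trans (Nat.pow_le_pow_right (by omega) (le_max_left d e))
    have h2 := (he x hx).trans (Nat.pow_le_pow_right (by omega) (le_max_right d e))
    nlinarith [Nat.zero_le (x ^ max d e)]
  | monomial k c =>
    refine ⟨k + c, fun x hx => ?_⟩
    rw [Polynomial.eval_monomial, pow_add, mul_comm]
    have h1 : c ≤ x ^ c := (Nat.lt_pow_self (by omega)).le
    exact Nat.mul_le_mul_left _ h1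

/-- the arithmetic: `ℓ` is small compared with `log L` -/
theorem arith1 (D : Polynomial ℕ) (k : ℕ) : ∃ N, ∀ ℓ ≥ N, ∀ L : ℕ,
    2 ^ ℓ < (D.eval ℓ + L + 1) ^ k → ℓ < (Nat.log 2 L + 2) * k := by
  obtain ⟨N, hN⟩ := Pool.Agent.J6H54.RO.poly_le_two_pow
    ((Polynomial.C 2 * (D + Polynomial.C 1)) ^ k)
  refine ⟨N, fun ℓ hℓ L h => ?_⟩
  have h1 := hN ℓ hℓ
  simp only [Polynomial.eval_pow, Polynomial.eval_mul, Polynomial.eval_add, Polynomial.eval_C]
    at h1
  by_cases hL : L ≤ D.eval ℓ + 1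
  · exfalso
    have h2 : (D.eval ℓ + L + 1) ^ k ≤ (2 * (D.eval ℓ + 1)) ^ k :=
      Nat.pow_le_pow_left (by omega) k
    omega
  · have h2 : (D.eval ℓ + L + 1) ^ k ≤ (2 * L) ^ k := Nat.pow_le_pow_left (by omega) k
    have h3 : L < 2 ^ (Nat.log 2 L + 1) := Nat.lt_pow_succ_log_self (by norm_num) L
    have h4 : (2 * L) ^ k ≤ (2 ^ (Nat.log 2 L + 2)) ^ k := by
      apply Nat.pow_le_pow_left
      rw [pow_succ 2 (Nat.log 2 L + 1)]
      omega
    rw [← pow_mul] at h4
    exact (Nat.pow_lt_pow_iff_right (by norm_num)).1 (h.trans_le (h2.trans h4))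

theorem ProvesIn.mono {Γ : Set Fm} {m m' : ℕ} {φ : Fm} (h : ProvesIn Γ m φ) (hm : m ≤ m') :
    ProvesIn Γ m' φ := by
  obtain ⟨π, h1, h2⟩ := h
  exact ⟨π, h1, h2.trans hm⟩

/-- Exponential lower bounds for the lengths of proofs of finite consistency, relative to every oracle
for which all proof systems for sets hard for `coNP` are exponentially slower than others. -/
theorem con_fin2 (A : Oracle)
    (hA : ∀ L : Set (List Bool), CoNPHardRel A L → ∀ P, IsProofSystem A L P →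
      ∃ Q, IsProofSystem A L Q ∧
        ∃ k : ℕ, {w : List Bool | ∀ v, P v = Q w → 2 ^ w.length < (v.length + 1) ^ k}.Infinite)
    (B : Set Fm) (μ : Fm)
    (hB : BaseC A B μ) (S : Set Fm) (hS : Theory A S) (hBS : B ⊆ S) (hcS : Consistent S) :
    ∃ T : Set Fm, Theory A T ∧ B ⊆ T ∧ Consistent T ∧ (∀ φ, Proves T φ ↔ Proves B φ) ∧
      ∀ Cn : Fm, FinCon B μ T Cn → ∃ k : ℕ,
        {n : ℕ | ∀ m, ProvesIn S m (at1 Cn n) → n ≤ (Nat.log 2 m) ^ k}.Infinite := by
  obtain ⟨C, hCf, hCC⟩ := s_chk A S hS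
  obtain ⟨v₀, hv₀⟩ := exists_memC hB
  have hrange := range_sysPC hB hBS hcS hCC hv₀
  obtain ⟨Q, ⟨hQ, hQr⟩, k, hinf⟩ := hA _ (hardC hB) (sysP C μ.neg v₀)
    ⟨isFP_sysP s_num s_spoly hCf μ.neg v₀, hrange⟩
  have hQK : ∀ (w : List Bool) (e x z : ℕ), Q w = bits (e, x, z) →
      Proves B (at3 μ.neg e x z) := by
    intro w e x z hw
    have h1 : Q w ∈ K B μ.neg := by
      rw [← hQr]
      exact ⟨w, rfl⟩
    obtain ⟨e', x', z', h2, h3⟩ := h1
    rw [hw] at h2
    have h4 := bits_injective h2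
    simp only [Prod.mk.injEq] at h4
    obtain ⟨rfl, rfl, rfl⟩ := h4
    exact h3
  obtain ⟨hc1, hc2⟩ := J6H86.RF.main s_log B μ.neg Q hB.theory.1
  have hax : ∀ ψ ∈ TG B μ.neg Q, Proves B ψ := by
    rintro ψ (h | ⟨w, e, x, z, hw, rfl⟩)
    · exact ⟨[], trivial, Or.inl h⟩
    · obtain ⟨π, hπ⟩ := hQK w e x z hw
      have hk : IsProof B [(at3 μ.neg e x z).imp (axm μ.neg w e x z)] :=
        ⟨trivial, Or.inl (hB.theory.1 _ (LogAx.k _ _))⟩
      exact ⟨_, s_log.2.1 B _ _ _ _ hk hπ⟩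
  have hcT : Consistent (TG B μ.neg Q) := hc1 hQK hB.consistent
  refine ⟨TG B μ.neg Q, J6H27.RF.Tg.main s_num s_spoly s_opc A B μ.neg Q hB.theory hQ,
    Set.subset_union_left, hcT, fun φ => ⟨s_log.2.2.2 B _ φ hax,
      fun ⟨π, hπ⟩ => ⟨π, s_log.2.2.1 B _ _ Set.subset_union_left hπ⟩⟩, fun Cn hCn => ?_⟩
  obtain ⟨p, q, hpq⟩ := hCn.compl
  obtain ⟨b, hb⟩ := IsFP.length_le hQ
  obtain ⟨r₁, hr₁⟩ := (poly_lines μ.neg).sz_le
  set r : Polynomial ℕ := r₁.comp (Polynomial.C 4 * Polynomial.X + b + Polynomial.C 2) with hr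
  set D : Polynomial ℕ := Polynomial.C 2 * b + Polynomial.C 3 + r + p.comp r with hD
  -- the numbers `n (w)`
  have key : ∀ w : List Bool, ∃ n : ℕ, n ≤ (q.comp r).eval w.length ∧
      ∀ L, ProvesIn S L (at1 Cn n) → ∃ v, sysP C μ.neg v₀ v = Q w ∧
        v.length ≤ D.eval w.length + L := by
    intro w
    have h1 : Q w ∈ K B μ.neg := by
      rw [← hQr]
      exact ⟨w, rfl⟩
    obtain ⟨e, x, z, h2, -⟩ := h1
    set m := (bits (lines μ.neg w e x z)).length with hm
    have hmr : m ≤ r.eval w.length := by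
      have h3 := hr₁ (w, e, x, z)
      have h4 := sz_listBool_ge (bits (lines μ.neg w e x z))
      have h5 : sz (w, e, x, z) ≤ 4 * w.length + b.eval w.length + 2 := by
        have h6 : sz (w, e, x, z) = sz w + sz (e, x, z) + 1 := by
          rw [sz_pair]
        have h7 : sz (e, x, z) = (Q w).length := by rw [h2]; exact bits_length _
        have h8 := hb w
        have h9 := sz_listBool_le w
        omega
      have h6 := eval_mono r₁ h5
      rw [hr, Polynomial.eval_comp]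
      simp only [Polynomial.eval_add, Polynomial.eval_mul, Polynomial.eval_C, Polynomial.eval_X]
      simp only at h3
      omega
    obtain ⟨π₁, hπ₁, hl₁⟩ := hpq e x z m ⟨_, hc2 w e x z h2, le_rfl⟩
    refine ⟨q.eval m, ?_, fun L hL => ?_⟩
    · rw [Polynomial.eval_comp]
      exact eval_mono q hmr
    obtain ⟨π₂, hπ₂, hl₂⟩ := hL
    have hfin := s_log.2.1 S _ _ _ _ (s_log.2.2.1 B S _ hBS hπ₁) hπ₂
    refine ⟨pairBits (Q w) (bits ((at3 μ e x z).neg ::
      (((at1 Cn (q.eval m)).imp (at3 μ e x z).neg :: π₁) ++ (at1 Cn (q.eval m) :: π₂)))), ?_, ?_⟩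
    · unfold sysP
      rw [unpair_pairBits, if_pos]
      exact ⟨(hCC _).2 ⟨_, rfl, hfin⟩, test_iff.2 ⟨e, x, z, _, h2, rfl⟩⟩
    · rw [Pool.Agent.H628R3.RO.length_pairBits]
      have k1 : (bits ((at3 μ e x z).neg :: (((at1 Cn (q.eval m)).imp (at3 μ e x z).neg :: π₁) ++
          (at1 Cn (q.eval m) :: π₂)))).length + 1 =
          sz (at3 μ e x z).neg + 1 + (bits ((at1 Cn (q.eval m)).imp (at3 μ e x z).neg :: π₁)).length +
            (bits (at1 Cn (q.eval m) :: π₂)).length := by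
        rw [bits_length, bits_length, bits_length, sz_list_cons]
        have := sz_append ((at1 Cn (q.eval m)).imp (at3 μ e x z).neg :: π₁)
          (at1 Cn (q.eval m) :: π₂)
        omega
      have k2 : sz (at3 μ e x z).neg < m := by
        rw [hm, bits_length]
        exact sz_le_of_mem (a := (at3 μ e x z).neg) (l := lines μ.neg w e x z)
          List.mem_cons_self
      have k3 := eval_mono p hmr
      have k5 := hb w
      simp only [hD, Polynomial.eval_add, Polynomial.eval_mul, Polynomial.eval_C,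
        Polynomial.eval_comp] at *
      omega
  choose nn hnn hnL using key
  obtain ⟨N, hN⟩ := arith1 D k
  obtain ⟨d, hd⟩ := eval_le_pow_self ((q.comp r).comp
    ((Polynomial.X + Polynomial.C 2) * Polynomial.C k))
  -- what membership gives
  have main : ∀ w : List Bool, (∀ v, sysP C μ.neg v₀ v = Q w →
      2 ^ w.length < (v.length + 1) ^ k) → N ≤ w.length → ∀ L, ProvesIn S L (at1 Cn (nn w)) →
        w.length < (Nat.log 2 L + 2) * k := by
    intro w hw hNw L hL
    obtain ⟨v, hv, hvl⟩ := hnL w L hL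
    refine hN _ hNw L ((hw v hv).trans_le (Nat.pow_le_pow_left ?_ k))
    omega
  refine ⟨d, ?_⟩
  intro hfin
  set M := N + 4 * k + 1 with hM
  have hsub : ∀ w : List Bool, (∀ v, sysP C μ.neg v₀ v = Q w →
      2 ^ w.length < (v.length + 1) ^ k) → M ≤ w.length →
        nn w ∈ {n : ℕ | ∀ m, ProvesIn S m (at1 Cn n) → n ≤ (Nat.log 2 m) ^ d} := by
    intro w hw hMw m hm
    have h1 := main w hw (by omega) m hm
    have h2 : 2 ≤ Nat.log 2 m := by
      by_contra hlt
      have h3 : (Nat.log 2 m + 2) * k ≤ 3 * k := Nat.mul_le_mul_right _ (by omega)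
      omega
    refine (hnn w).trans ((eval_mono _ h1.le).trans ?_)
    have h4 := hd _ h2
    simpa only [Polynomial.eval_comp, Polynomial.eval_mul, Polynomial.eval_add,
      Polynomial.eval_X, Polynomial.eval_C] using h4
  -- all `n` have proofs
  have hex : ∀ n, ∃ L, ProvesIn S L (at1 Cn n) := by
    intro n
    obtain ⟨π, hπ⟩ := hCn.pos n (fun ⟨π, h1, _⟩ => hcT ⟨π, h1⟩)
    exact ⟨_, π, s_log.2.2.1 B S _ hBS hπ, le_rfl⟩
  choose LL hLL using hex
  obtain ⟨Lmax, hLmax⟩ := (hfin.image LL).bddAbove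
  have hfin2 : {w : List Bool | w.length ≤ M + (Nat.log 2 Lmax + 2) * k}.Finite :=
    List.finite_length_le Bool _
  obtain ⟨w, hw, hw'⟩ := hinf.exists_notMem_finite hfin2
  have hlen : M + (Nat.log 2 Lmax + 2) * k < w.length := not_le.1 hw'
  have h1 := hsub w hw (by omega)
  have h2 : LL (nn w) ≤ Lmax := hLmax ⟨nn w, h1, rfl⟩
  have h3 := main w hw (by omega) Lmax ((hLL (nn w)).mono h2)
  omega

end Pool.Agent.J6H17.RF
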