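import Pool.Agent.J6H17.RF.FCon

/-!
# The finite consistency conjecture relative to an oracle, and its negation
-/

set_option autoImplicit false

namespace Pool.Agent.J6H17.RF

open Pool.Agent.NPC Pool.Agent.H628R3.RO

/-- The nonuniform finite consistency conjecture, relative to the oracle `A`: for every consistent
theory `S` containing the base theory there is such a theory `T` for which the lengths of the proofs in
`S` of the finite consistency statements are not polynomially bounded. Moreover, `T` can be chosen as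
another axiomatization of the base theory: it has the same theorems. -/
def ConQuestion (A : Oracle) : Prop :=
  ∀ (B : Set Fm) (μ : Fm), BaseC A B μ →
    ∀ S : Set Fm, Theory A S → B ⊆ S → Consistent S →
      ∃ T : Set Fm, Theory A T ∧ B ⊆ T ∧ Consistent T ∧ (∀ φ, Proves T φ ↔ Proves B φ) ∧
        ∀ Cn : Fm, FinCon B μ T Cn →
          ¬ ∃ p : Polynomial ℕ, ∀ n, ProvesIn S (p.eval n) (at1 Cn n)

/-- The formula `Cn` formalizes the finite consistency of `Γ`, and it follows from finite reflection
for a formalization `Pr` of the proof predicate of `Γ`, with proofs in `B` of polynomial length. -/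
structure FinConD (A : Oracle) (B : Set Fm) (μ : Fm) (Γ : Set Fm) (Cn : Fm) : Prop extends
    FinCon B μ Γ Cn where
  ofRfn : ∃ Pr : Fm, FormalizesD A B μ Γ Pr ∧ ∃ p q : Polynomial ℕ, ∀ n : ℕ,
    ProvesIn B (p.eval n) ((rfn Pr μ (q.eval n)).imp (at1 Cn n))

/-- A base theory in which the finite consistency of all theories containing it can be formalized. -/
structure BaseCD (A : Oracle) (B : Set Fm) (μ : Fm) : Prop extends BaseD A B μ where
  formalC : ∀ Γ : Set Fm, Theory A Γ → B ⊆ Γ → ∃ Cn, FinConD A B μ Γ Cn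

theorem BaseCD.toBaseC {A : Oracle} {B : Set Fm} {μ : Fm} (h : BaseCD A B μ) : BaseC A B μ where
  theory := h.theory
  consistent := h.consistent
  free := h.free
  decides := h.decides
  univ := h.univ
  formal := fun Γ hΓ hB => by
    obtain ⟨Cn, hCn⟩ := h.formalC Γ hΓ hB
    exact ⟨Cn, hCn.toFinCon⟩

/-- The negation of the nonuniform finite consistency conjecture, relative to the oracle `A`, in a
uniform way: for every base theory there is a consistent theory `S` containing it such that for every
such theory `T` the lengths of the proofs in `S` of the finite consistency statements for `T` are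
polynomially bounded. -/
def NegConQuestion (A : Oracle) : Prop :=
  ∀ (B : Set Fm) (μ : Fm), BaseCD A B μ →
    ∃ S : Set Fm, Theory A S ∧ B ⊆ S ∧ Consistent S ∧
      ∀ T : Set Fm, Theory A T → B ⊆ T → Consistent T →
        ∀ Cn : Fm, FinConD A B μ T Cn →
          ∃ p : Polynomial ℕ, ∀ n, ProvesIn S (p.eval n) (at1 Cn n)

theorem sz_imp_right (φ ψ : Fm) : sz ψ ≤ sz (φ.imp ψ) := by
  change (ψ.code).size ≤ ((φ.imp ψ).code).size
  rw [Fm.code, T.size_node, T.size_node]
  omega

theorem negCon {A : Oracle} (hN : NegQuestion A) : NegConQuestion A := by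
  intro B μ hB
  obtain ⟨S, hS, hBS, hcS, h⟩ := hN B μ hB.toBaseD
  refine ⟨S, hS, hBS, hcS, fun T hT hBT hcT Cn hCn => ?_⟩
  obtain ⟨Pr, hPr, p, q, hpq⟩ := hCn.ofRfn
  obtain ⟨F, hF, hc⟩ := h T hT hBT hcT Pr hPr
  obtain ⟨b, hb⟩ := IsFP.length_le hF
  refine ⟨Polynomial.C 2 * p + b.comp q + Polynomial.C 2, fun n => ?_⟩
  obtain ⟨π₁, hπ₁, hl₁⟩ := hpq n
  obtain ⟨π₂, h2, hπ₂⟩ := hc (q.eval n)
  have hfin := s_log.2.1 S _ _ _ _ (s_log.2.2.1 B S _ hBS hπ₁) hπ₂
  refine ⟨_, hfin, ?_⟩
  have k1 : (bits (at1 Cn n :: (((rfn Pr μ (q.eval n)).imp (at1 Cn n) :: π₁) ++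
      (rfn Pr μ (q.eval n) :: π₂)))).length + 1 =
      sz (at1 Cn n) + 1 + (bits ((rfn Pr μ (q.eval n)).imp (at1 Cn n) :: π₁)).length +
        (bits (rfn Pr μ (q.eval n) :: π₂)).length := by
    rw [bits_length, bits_length, bits_length, sz_list_cons]
    have := sz_append ((rfn Pr μ (q.eval n)).imp (at1 Cn n) :: π₁) (rfn Pr μ (q.eval n) :: π₂)
    omega
  have k2 : sz (at1 Cn n) ≤ p.eval n := by
    refine (sz_imp_right (rfn Pr μ (q.eval n)) _).trans (le_trans ?_ hl₁)
    rw [bits_length]
    exact (sz_le_of_mem (a := (rfn Pr μ (q.eval n)).imp (at1 Cn n))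
      (l := (rfn Pr μ (q.eval n)).imp (at1 Cn n) :: π₁) List.mem_cons_self).le
  have k3 : (bits (rfn Pr μ (q.eval n) :: π₂)).length ≤ b.eval (q.eval n) := by
    rw [← h2]
    simpa using hb (List.replicate (q.eval n) true)
  simp only [Polynomial.eval_add, Polynomial.eval_mul, Polynomial.eval_C, Polynomial.eval_comp]
  omega

end Pool.Agent.J6H17.RF
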