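import Pool.Agent.J6H17.RF.Fin

/-!
# Project RF: the proof system is `p`-optimal
-/

set_option autoImplicit false

namespace Pool.Agent.J6H17.RF

open Pool.Agent.NPC Pool.Agent.H628R3.RO

/-- `n` ones, where `n` is the sum of the lengths of the numbers -/
def ones (e u x z : ℕ) : List Bool := (e.bits ++ u.bits ++ x.bits ++ z.bits).map (fun _ => true)

theorem ones_eq (e u x z : ℕ) :
    ones e u x z = List.replicate (e.size + u.size + x.size + z.size) true := by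
  rw [ones, List.map_const']
  simp [Nat.size_eq_bits_len, add_assoc]

theorem poly_ones {α : Type} [TEnc α] {e u x z : α → ℕ} (he : Poly e) (hu : Poly u) (hx : Poly x)
    (hz : Poly z) : Poly (fun a => ones (e a) (u a) (x a) (z a)) := by
  refine NPC.Poly.map (F := fun _ _ => true) ?_ (NPC.Poly.const _)
  exact Poly.append (Poly.append (Poly.append (Poly.natBits he) (Poly.natBits hu))
    (Poly.natBits hx)) (Poly.natBits hz)

/-- the three lines of the proof of `μ (e, x, z)` in the theory of the proof system -/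
def lines (μ : Fm) (w : List Bool) (e x z : ℕ) : List Fm :=
  [at3 μ e x z, axm μ w e x z, Fm.eq (.var (codeN w)) (.var (codeN w))]

/-- the number of this proof -/
def uN (μ : Fm) (w : List Bool) (e x z : ℕ) : ℕ := codeN (bits (lines μ w e x z))

theorem poly_uN (hN : S_NUM) (hSP : S_SPOLY) (μ : Fm) :
    Poly (fun a : List Bool × ℕ × ℕ × ℕ => uN μ a.1 a.2.1 a.2.2.1 a.2.2.2) := by
  have h3 : Poly (fun a : List Bool × ℕ × ℕ × ℕ => at3 μ a.2.1 a.2.2.1 a.2.2.2) :=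
    poly_at3 hN hSP μ (Poly.fst (Poly.snd Poly.id)) (Poly.fst (Poly.snd (Poly.snd Poly.id)))
      (Poly.snd (Poly.snd (Poly.snd Poly.id)))
  have hv : Poly (fun a : List Bool × ℕ × ℕ × ℕ => Tm.var (codeN a.1)) :=
    hSP.2.2.2.2.2.2 _ _ (hN.2.1.comp (Poly.fst Poly.id))
  have he : Poly (fun a : List Bool × ℕ × ℕ × ℕ =>
      Fm.eq (.var (codeN a.1)) (.var (codeN a.1))) := hSP.2.2.2.1 _ _ _ hv hv
  have hx : Poly (fun a : List Bool × ℕ × ℕ × ℕ => axm μ a.1 a.2.1 a.2.2.1 a.2.2.2) :=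
    hSP.2.1 _ _ _ he h3
  exact hN.2.1.comp (poly_bits (Poly.cons h3 (Poly.cons hx (Poly.cons he (NPC.Poly.const [])))))

theorem op_comp {A : Oracle} (hO : S_OPC) {α β γ : Type} [TEnc α] [TEnc β] [TEnc γ] {f : α → β}
    {g : β → γ} (hf : OP A f) (hg : OP A g) : OP A (fun a => g (f a)) :=
  (hO A).1 _ _ _ f g hf hg

theorem op_poly {A : Oracle} (hO : S_OPC) {α β : Type} [TEnc α] [TEnc β] [TDec α] {f : α → β}
    (hf : Poly f) : OP A f := (hO A).2.2.1 _ _ f hf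

section

variable (A : Oracle) (Q F1 F2 F3 : List Bool → List Bool) (Pr μ : Fm)

/-- all data for the string `w` -/
def d0 (w : List Bool) : ℕ × ℕ × ℕ := trip (Q w)

def dn (w : List Bool) : ℕ × ℕ × ℕ × ℕ :=
  ((d0 Q w).1, uN μ w (d0 Q w).1 (d0 Q w).2.1 (d0 Q w).2.2, (d0 Q w).2.1, (d0 Q w).2.2)

def onesOf (a : ℕ × ℕ × ℕ × ℕ) : List Bool := ones a.1 a.2.1 a.2.2.1 a.2.2.2

def nOf (a : ℕ × ℕ × ℕ × ℕ) : ℕ := a.1.size + a.2.1.size + a.2.2.1.size + a.2.2.2.size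

theorem poly_onesOf : Poly onesOf :=
  poly_ones (Poly.fst Poly.id) (Poly.fst (Poly.snd Poly.id))
    (Poly.fst (Poly.snd (Poly.snd Poly.id))) (Poly.snd (Poly.snd (Poly.snd Poly.id)))

theorem poly_nOf : Poly nOf := (Poly.length poly_onesOf).congr fun a => by
  rw [onesOf, ones_eq, List.length_replicate, nOf]

variable {A Q F1 F2 F3 Pr μ}

theorem op_dn (hN : S_NUM) (hSP : S_SPOLY) (hO : S_OPC) (hQ : IsFP A Q) : OP A (dn Q μ) := by
  have hid : OP A (fun w : List Bool => w) := (hO A).2.2.1 _ _ _ Poly.id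
  have hq : OP A Q := (hO A).2.2.2.1 _ hQ
  have h0 : OP A (d0 Q) := op_comp hO (g := trip) hq (op_poly hO poly_trip)
  have h1 : OP A (fun w => (w, d0 Q w)) := (hO A).2.1 _ _ _ _ _ hid h0
  have h2 : Poly (fun a : List Bool × ℕ × ℕ × ℕ =>
      (a.2.1, uN μ a.1 a.2.1 a.2.2.1 a.2.2.2, a.2.2.1, a.2.2.2)) :=
    Poly.pair (Poly.fst (Poly.snd Poly.id)) (Poly.pair (poly_uN hN hSP μ)
      (Poly.snd (Poly.snd Poly.id)))
  have h3 := op_comp hO h1 (op_poly hO h2)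
  exact h3

/-- the list of the trees in the value of `F` at the string `f a` -/
theorem op_trees (hO : S_OPC) {F : List Bool → List Bool} (hF : IsFP A F) {α : Type} [TEnc α]
    [TDec α] {f : α → List Bool} (hf : Poly f) : OP A (fun a => trees (F (f a))) :=
  op_comp hO (g := trees) (op_comp hO (g := F) (op_poly hO hf) ((hO A).2.2.2.1 _ hF))
    (op_poly hO poly_trees)

/-- the arguments of the assembly -/
def args (F1 F2 F3 : List Bool → List Bool) (a : ℕ × ℕ × ℕ × ℕ) : AIn :=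
  ((nOf a, a.1, a.2.1, a.2.2.1, a.2.2.2),
    (trees (F1 (onesOf a)), trees (F3 (pairBits (bits a.1) (onesOf a))),
      trees (F3 (pairBits (bits a.2.1) (onesOf a))),
      trees (F3 (pairBits (bits a.2.2.1) (onesOf a))),
      trees (F3 (pairBits (bits a.2.2.2) (onesOf a))), trees (F2 (bits a))))

theorem op_args (hO : S_OPC) (h1 : IsFP A F1) (h2 : IsFP A F2) (h3 : IsFP A F3) :
    OP A (args F1 F2 F3) := by
  have hc := poly_onesOf
  have a1 : Poly (fun a : ℕ × ℕ × ℕ × ℕ => a.1) := Poly.fst Poly.id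
  have a2 : Poly (fun a : ℕ × ℕ × ℕ × ℕ => a.2.1) := Poly.fst (Poly.snd Poly.id)
  have a3 : Poly (fun a : ℕ × ℕ × ℕ × ℕ => a.2.2.1) := Poly.fst (Poly.snd (Poly.snd Poly.id))
  have a4 : Poly (fun a : ℕ × ℕ × ℕ × ℕ => a.2.2.2) := Poly.snd (Poly.snd (Poly.snd Poly.id))
  have k0 : OP A (fun a : ℕ × ℕ × ℕ × ℕ => (nOf a, a.1, a.2.1, a.2.2.1, a.2.2.2)) :=
    (hO A).2.2.1 _ _ _ (Poly.pair poly_nOf Poly.id)
  have k1 := op_trees hO h1 hc
  have p1 := op_trees hO h3 (Pool.Agent.H622R2.poly_pairBits (poly_bits a1) hc)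
  have p2 := op_trees hO h3 (Pool.Agent.H622R2.poly_pairBits (poly_bits a2) hc)
  have p3 := op_trees hO h3 (Pool.Agent.H622R2.poly_pairBits (poly_bits a3) hc)
  have p4 := op_trees hO h3 (Pool.Agent.H622R2.poly_pairBits (poly_bits a4) hc)
  have k2 := op_trees hO h2 (poly_bits (Poly.id (α := ℕ × ℕ × ℕ × ℕ)))
  exact (hO A).2.1 _ _ _ _ _ k0 ((hO A).2.1 _ _ _ _ _ k1 ((hO A).2.1 _ _ _ _ _ p1
    ((hO A).2.1 _ _ _ _ _ p2 ((hO A).2.1 _ _ _ _ _ p3 ((hO A).2.1 _ _ _ _ _ p4 k2)))))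

/-- the assembly of all arguments -/
def asmA (Pr μ : Fm) (a : AIn) : List T :=
  asm Fm.code Pr μ a.1.1 a.1.2.1 a.1.2.2.1 a.1.2.2.2.1 a.1.2.2.2.2
    a.2.1 a.2.2.1 a.2.2.2.1 a.2.2.2.2.1 a.2.2.2.2.2.1 a.2.2.2.2.2.2

/-- the translation of `Q`-proofs -/
def tr (Q F1 F2 F3 : List Bool → List Bool) (Pr μ : Fm) (w : List Bool) : List Bool :=
  pairBits (Q w) (bits (asmA Pr μ (args F1 F2 F3 (dn Q μ w))))

theorem isFP_tr (hN : S_NUM) (hSP : S_SPOLY) (hO : S_OPC) (hAP : S_ASMP) (hQ : IsFP A Q)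
    (h1 : IsFP A F1) (h2 : IsFP A F2) (h3 : IsFP A F3) : IsFP A (tr Q F1 F2 F3 Pr μ) := by
  have k1 : OP A (fun w => args F1 F2 F3 (dn Q μ w)) :=
    op_comp hO (g := args F1 F2 F3) (op_dn hN hSP hO hQ) (op_args hO h1 h2 h3)
  have k2 : OP A (fun w => bits (asmA Pr μ (args F1 F2 F3 (dn Q μ w)))) :=
    op_comp hO (g := fun a => bits (asmA Pr μ a)) k1
      (op_poly hO (poly_bits (f := asmA Pr μ) (hAP Pr μ)))
  have k3 := (hO A).2.1 _ _ _ _ _ ((hO A).2.2.2.1 _ hQ) k2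
  have k4 : Poly (fun p : List Bool × List Bool => pairBits p.1 p.2) :=
    Pool.Agent.H622R2.poly_pairBits (Poly.fst Poly.id) (Poly.snd Poly.id)
  have k5 := op_comp hO k3 (op_poly hO k4)
  exact (hO A).2.2.2.2.1 _ k5

end

theorem fin (hL : S_LOG) (hA : S_ASMC) (hN : S_NUM) (hSP : S_SPOLY) (hAP : S_ASMP) (hO : S_OPC)
    (hC : S_CHK) (hH : S_HARD) (hT : S_TG) (hCo : S_CONS) : S_FIN := by
  intro A hno B μ hB S hS hBS hcS
  by_contra hcon
  push Not at hcon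
  obtain ⟨C, hCf, hCC⟩ := hC A S hS
  obtain ⟨v₀, hv₀⟩ := exists_mem hB
  have hrange := range_sysP hB hL hBS hcS hCC hv₀
  refine hno (K B μ) (sysP C μ v₀) (hH A B μ hB) ⟨⟨isFP_sysP hN hSP hCf μ v₀, hrange⟩, ?_⟩
  rintro Q ⟨hQ, hQr⟩
  have hQK : ∀ (w : List Bool) (e x z : ℕ), Q w = bits (e, x, z) → Proves B (at3 μ e x z) := by
    intro w e x z hw
    have h1 : Q w ∈ K B μ := by
      rw [← hQr]
      exact ⟨w, rfl⟩
    obtain ⟨e', x', z', h2, h3⟩ := h1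
    rw [hw] at h2
    have h4 := bits_injective h2
    simp only [Prod.mk.injEq] at h4
    obtain ⟨rfl, rfl, rfl⟩ := h4
    exact h3
  obtain ⟨hc1, hc2⟩ := hCo B μ Q hB.theory.1
  have hax : ∀ ψ ∈ TG B μ Q, Proves B ψ := by
    rintro ψ (h | ⟨w, e, x, z, hw, rfl⟩)
    · exact ⟨[], trivial, Or.inl h⟩
    · obtain ⟨π, hπ⟩ := hQK w e x z hw
      have hk : IsProof B [(at3 μ e x z).imp (axm μ w e x z)] :=
        ⟨trivial, Or.inl (hB.theory.1 _ (LogAx.k _ _))⟩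
      exact ⟨_, hL.2.1 B _ _ _ _ hk hπ⟩
  obtain ⟨Pr, hPr, F1, hF1, hF1'⟩ := hcon (TG B μ Q) (hT A B μ Q hB.theory hQ)
    Set.subset_union_left (hc1 hQK hB.consistent) (fun φ => ⟨hL.2.2.2 B _ φ hax,
      fun ⟨π, hπ⟩ => ⟨π, hL.2.2.1 B _ _ Set.subset_union_left hπ⟩⟩)
  obtain ⟨F2, hF2, hF2'⟩ := hPr.pos
  obtain ⟨F3, hF3, hF3'⟩ := hB.len
  refine ⟨tr Q F1 F2 F3 Pr μ, isFP_tr hN hSP hO hAP hQ hF1 hF2 hF3, fun w => ?_⟩
  have h1 : Q w ∈ K B μ := by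
    rw [← hQr]
    exact ⟨w, rfl⟩
  obtain ⟨e, x, z, h2, -⟩ := h1
  set u := uN μ w e x z with hu
  have hd : dn Q μ w = (e, u, x, z) := by
    unfold dn d0
    rw [h2, trip_bits]
  set n := e.size + u.size + x.size + z.size with hn
  have hones : onesOf (e, u, x, z) = List.replicate n true := ones_eq e u x z
  obtain ⟨π, hπ, hπ'⟩ := hF1' n
  obtain ⟨pe, hpe, hpe'⟩ := hF3' e n (by omega)
  obtain ⟨pu, hpu, hpu'⟩ := hF3' u n (by omega)
  obtain ⟨px, hpx, hpx'⟩ := hF3' x n (by omega)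
  obtain ⟨pz, hpz, hpz'⟩ := hF3' z n (by omega)
  obtain ⟨pp, hpp, hpp'⟩ := hF2' e u x z ⟨_, hc2 w e x z h2, rfl⟩
  have hlog : ∀ φ, LogAx φ → φ ∈ S := fun φ h => hS.1 φ h
  have hmain := hA S hlog Pr μ hB.free n e u x z π pe pu px pz pp hπ'
    (hL.2.2.1 B S _ hBS hpe') (hL.2.2.1 B S _ hBS hpu') (hL.2.2.1 B S _ hBS hpx')
    (hL.2.2.1 B S _ hBS hpz') (hL.2.2.1 B S _ hBS hpp')
  have hargs : asmA Pr μ (args F1 F2 F3 (dn Q μ w)) =
      (asm id Pr μ n e u x z (rfn Pr μ n :: π) (lenLe e n :: pe) (lenLe u n :: pu)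
        (lenLe x n :: px) (lenLe z n :: pz) (at4 Pr e u x z :: pp)).map Fm.code := by
    rw [asm_map, hd]
    unfold asmA args
    simp only [hones, hπ, hpe, hpu, hpx, hpz, hpp, trees_bits]
    rfl
  unfold tr sysP
  rw [unpair_pairBits, hargs, bits_map_code, if_pos]
  refine ⟨(hCC _).2 ⟨_, rfl, hmain⟩, ?_⟩
  exact test_iff.2 ⟨e, x, z, _, h2, rfl⟩

end Pool.Agent.J6H17.RF
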