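import Pool.Agent.J6H17.RF.Defs
import Pool.Agent.NPC.Num
import Pool.Agent.NPC.Dec

/-!
# Project RF: statements of the modules
-/

set_option autoImplicit false

namespace Pool.Agent.J6H17.RF

open Pool.Agent.NPC Pool.Agent.H628R3.RO

/-! ### RF-LOG: proofs -/

/-- Modus ponens, larger axiom sets, concatenation, elimination of provable axioms. -/
def S_LOG : Prop :=
  (∀ (Γ : Set Fm) (π π' : List Fm), IsProof Γ π → IsProof Γ π' → IsProof Γ (π ++ π')) ∧
  (∀ (Γ : Set Fm) (φ ψ : Fm) (π π' : List Fm), IsProof Γ (φ.imp ψ :: π) → IsProof Γ (φ :: π') →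
    IsProof Γ (ψ :: ((φ.imp ψ :: π) ++ (φ :: π')))) ∧
  (∀ (Γ Γ' : Set Fm) (π : List Fm), Γ ⊆ Γ' → IsProof Γ π → IsProof Γ' π) ∧
  (∀ (Γ Γ' : Set Fm) (φ : Fm), (∀ ψ ∈ Γ', Proves Γ ψ) → Proves Γ' φ → Proves Γ φ)

/-! ### RF-SUB: instances of the reflection sentence -/

/-- The matrix of the reflection sentence. -/
def mat (Pr μ : Fm) (n : ℕ) : Fm :=
  .imp (.le (.len (.var 0)) (num n)) (.imp (.le (.len (.var 1)) (num n))
    (.imp (.le (.len (.var 2)) (num n)) (.imp (.le (.len (.var 3)) (num n)) (.imp Pr μ))))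

def s1 (e : ℕ) : ℕ → Tm := fun i => if i = 0 then num e else Tm.var i
def s2 (e u : ℕ) : ℕ → Tm := fun i => if i = 0 then num e else if i = 1 then num u else Tm.var i
def s3 (e u x : ℕ) : ℕ → Tm := fun i => if i = 0 then num e else if i = 1 then num u else
  if i = 2 then num x else Tm.var i

def J0 (Pr μ : Fm) (n : ℕ) : Fm := rfn Pr μ n
def J1 (Pr μ : Fm) (n e : ℕ) : Fm := .all 1 (.all 2 (.all 3 ((mat Pr μ n).sub (s1 e))))
def J2 (Pr μ : Fm) (n e u : ℕ) : Fm := .all 2 (.all 3 ((mat Pr μ n).sub (s2 e u)))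
def J3 (Pr μ : Fm) (n e u x : ℕ) : Fm := .all 3 ((mat Pr μ n).sub (s3 e u x))
def J8 (Pr μ : Fm) (e u x z : ℕ) : Fm := .imp (at4 Pr e u x z) (at3 μ e x z)
def J7 (Pr μ : Fm) (n e u x z : ℕ) : Fm := .imp (lenLe z n) (J8 Pr μ e u x z)
def J6 (Pr μ : Fm) (n e u x z : ℕ) : Fm := .imp (lenLe x n) (J7 Pr μ n e u x z)
def J5 (Pr μ : Fm) (n e u x z : ℕ) : Fm := .imp (lenLe u n) (J6 Pr μ n e u x z)
def J4 (Pr μ : Fm) (n e u x z : ℕ) : Fm := .imp (lenLe e n) (J5 Pr μ n e u x z)

/-- The four instantiation axioms. Proof: numerals are closed terms (no variable occurs in them), so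
`num n` is not changed by `sub`, and it is free for every variable in every formula; by induction on
`φ`: if each `σ i` is closed or `var i`, `σ k = var k` and `c` is closed, then
`(φ.sub σ).sub (update var k c) = φ.sub (update σ k c)`; for a formula without free variable `1` the
substitutions of `at3` and `at4` agree; `sub` commutes with the quantifiers in `rfn` as the
substituted variables differ from the quantified one. -/
def S_SUB : Prop := ∀ (Pr μ : Fm), (∀ i, μ.Free i → i = 0 ∨ i = 2 ∨ i = 3) →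
  ∀ n e u x z : ℕ,
    LogAx ((J0 Pr μ n).imp (J1 Pr μ n e)) ∧
    LogAx ((J1 Pr μ n e).imp (J2 Pr μ n e u)) ∧
    LogAx ((J2 Pr μ n e u).imp (J3 Pr μ n e u x)) ∧
    LogAx ((J3 Pr μ n e u x).imp (J4 Pr μ n e u x z))

/-! ### RF-ASMC, RF-ASMP: the assembly of a proof of `μ (e, x, z)` -/

/-- The assembly, for an arbitrary type of codes of formulas: `c` codes formulas. The arguments are
proofs of the reflection sentence, of the bounds for `e`, `u`, `x`, `z`, and of
`Pr (e, u, x, z)`. -/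
def asm {C : Type} (c : Fm → C) (Pr μ : Fm) (n e u x z : ℕ) (π pe pu px pz pp : List C) : List C :=
  c (at3 μ e x z) :: ((c (J8 Pr μ e u x z) :: ((c (J7 Pr μ n e u x z) ::
    ((c (J6 Pr μ n e u x z) :: ((c (J5 Pr μ n e u x z) :: ((c (J4 Pr μ n e u x z) ::
      ([c ((J3 Pr μ n e u x).imp (J4 Pr μ n e u x z))] ++ (c (J3 Pr μ n e u x) ::
        ([c ((J2 Pr μ n e u).imp (J3 Pr μ n e u x))] ++ (c (J2 Pr μ n e u) ::
          ([c ((J1 Pr μ n e).imp (J2 Pr μ n e u))] ++ (c (J1 Pr μ n e) ::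
            ([c ((J0 Pr μ n).imp (J1 Pr μ n e))] ++ π)))))))) ++ pe)) ++ pu)) ++ px)) ++ pz)) ++ pp)

/-- The assembly is a proof (modus ponens nine times). -/
def S_ASMC : Prop := ∀ (Γ : Set Fm), (∀ φ, LogAx φ → φ ∈ Γ) →
  ∀ (Pr μ : Fm), (∀ i, μ.Free i → i = 0 ∨ i = 2 ∨ i = 3) → ∀ (n e u x z : ℕ)
    (π pe pu px pz pp : List Fm),
    IsProof Γ (rfn Pr μ n :: π) → IsProof Γ (lenLe e n :: pe) → IsProof Γ (lenLe u n :: pu) →
    IsProof Γ (lenLe x n :: px) → IsProof Γ (lenLe z n :: pz) →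
    IsProof Γ (at4 Pr e u x z :: pp) →
    IsProof Γ (asm id Pr μ n e u x z (rfn Pr μ n :: π) (lenLe e n :: pe) (lenLe u n :: pu)
      (lenLe x n :: px) (lenLe z n :: pz) (at4 Pr e u x z :: pp))

/-- RF-NUM: the numeral is computable in polynomial time (the code of a natural number is that of the
list of its bits, `Poly.natBits`, `Poly.foldr`), and so is the number of a string. -/
def S_NUM : Prop :=
  Poly (fun n : ℕ => num n) ∧ Poly (fun w : List Bool => codeN w) ∧
    ∀ w : List Bool, (codeN w).bits = w ++ [true]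

/-- RF-SPOLY: substitution into a fixed formula (by induction on the formula), and the constructor
`imp`. -/
def S_SPOLY : Prop :=
  (∀ (α : Type) [TEnc α] (φ : Fm) (σ : α → ℕ → Tm), (∀ i, Poly (fun a => σ a i)) →
    Poly (fun a => φ.sub (σ a))) ∧
  (∀ (α : Type) [TEnc α] (f g : α → Fm), Poly f → Poly g → Poly (fun a => (f a).imp (g a))) ∧
  (∀ (α : Type) [TEnc α] (f : α → Fm) (x : ℕ), Poly f → Poly (fun a => Fm.all x (f a))) ∧
  (∀ (α : Type) [TEnc α] (f g : α → Tm), Poly f → Poly g → Poly (fun a => Fm.eq (f a) (g a))) ∧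
  (∀ (α : Type) [TEnc α] (f g : α → Tm), Poly f → Poly g → Poly (fun a => Fm.le (f a) (g a))) ∧
  (∀ (α : Type) [TEnc α] (f : α → Tm), Poly f → Poly (fun a => Tm.len (f a))) ∧
  (∀ (α : Type) [TEnc α] (f : α → ℕ), Poly f → Poly (fun a => Tm.var (f a)))

/-- The arguments of the assembly. -/
abbrev AIn : Type := (ℕ × ℕ × ℕ × ℕ × ℕ) × (List T × List T × List T × List T × List T × List T)

/-- RF-ASMP: the assembly is computable in polynomial time. -/
def S_ASMP : Prop := ∀ (Pr μ : Fm), Poly (fun a : AIn =>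
  asm Fm.code Pr μ a.1.1 a.1.2.1 a.1.2.2.1 a.1.2.2.2.1 a.1.2.2.2.2
    a.2.1 a.2.2.1 a.2.2.2.1 a.2.2.2.2.1 a.2.2.2.2.2.1 a.2.2.2.2.2.2)

/-! ### RF-OPC, RF-ALL: functions between coded data, polynomial time relative to the oracle -/

/-- The function between types of coded data is polynomial-time computable relative to `A`. -/
def OP (A : Oracle) {α β : Type} [TEnc α] [TEnc β] (f : α → β) : Prop :=
  ∃ F : List Bool → List Bool, IsFP A F ∧ ∀ a, F (bits a) = bits (f a)

/-- RF-OPC: closure properties (`IsFP.comp`, `IsFP.pair`, `IsFP.of_poly` in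
`Pool.Agent.H628R3.RO.A3`; `unbits`, `poly_unbits` in `Pool.Agent.NPC.Dec`). -/
def S_OPC : Prop := ∀ A : Oracle,
  (∀ (α β γ : Type) [TEnc α] [TEnc β] [TEnc γ] (f : α → β) (g : β → γ),
    OP A f → OP A g → OP A (fun a => g (f a))) ∧
  (∀ (α β γ : Type) [TEnc α] [TEnc β] [TEnc γ] (f : α → β) (g : α → γ),
    OP A f → OP A g → OP A (fun a => (f a, g a))) ∧
  (∀ (α β : Type) [TEnc α] [TEnc β] [TDec α] (f : α → β), Poly f → OP A f) ∧
  (∀ F : List Bool → List Bool, IsFP A F → OP A F) ∧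
  (∀ F : List Bool → List Bool, OP A F → IsFP A F) ∧
  (∀ F : List Bool → List Bool, IsFP A F → OP A (fun t : T => F t.enc))

/-- RF-ALL: a test for all members of a list (`Pool.Agent.H620R2.Gauge.IsFP.loop`, transfer by
`isFP_tra`, `isFP_tra'` in `Pool.Agent.J6H49.ES.Incl`). -/
def S_ALL : Prop := ∀ (A : Oracle) (D : List Bool → List Bool), IsFP A D →
  ∃ D' : List Bool → List Bool, IsFP A D' ∧
    ∀ l : List T, (D' (bits l) = [true] ↔ ∀ t ∈ l, D t.enc = [true])

/-- RF-CHK: the proofs from a theory are recognizable in polynomial time relative to the oracle. -/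
def S_CHK : Prop := ∀ (A : Oracle) (Γ : Set Fm), Theory A Γ →
  ∃ C : List Bool → List Bool, IsFP A C ∧
    ∀ y, C y = [true] ↔ ∃ π : List Fm, bits π = y ∧ IsProof Γ π

/-! ### The universal set and the theories of proof systems -/

/-- The set of all `(e, x, z)` for which `μ (e, x, z)` is provable. -/
def K (B : Set Fm) (μ : Fm) : Set (List Bool) :=
  {y | ∃ e x z : ℕ, y = bits (e, x, z) ∧ Proves B (at3 μ e x z)}

/-- RF-HARD: it is hard for `NP`. Reduction: `x` is mapped to `(e, codeN x, codeN (1 … 1))` with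
`p (|x|)` ones. -/
def S_HARD : Prop := ∀ (A : Oracle) (B : Set Fm) (μ : Fm), Base A B μ → NPHardRel A (K B μ)

/-- The axiom of the string `w`: `x_c = x_c → μ (e, x, z)`, where `c` is the number of `w`. -/
def axm (μ : Fm) (w : List Bool) (e x z : ℕ) : Fm :=
  (Fm.eq (.var (codeN w)) (.var (codeN w))).imp (at3 μ e x z)

/-- The theory of the proof system `g`. -/
def TG (B : Set Fm) (μ : Fm) (g : List Bool → List Bool) : Set Fm :=
  B ∪ {φ | ∃ (w : List Bool) (e x z : ℕ), g w = bits (e, x, z) ∧ φ = axm μ w e x z}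

/-- RF-TG: it is a theory. (Parse the string to a tree; compute `c` and `w` from the tree of a
formula of the shape `x_c = x_c → ψ`; compute `g w = bits (e, x, z)` and compare the tree with that
of `axm μ w e x z`.) -/
def S_TG : Prop := ∀ (A : Oracle) (B : Set Fm) (μ : Fm) (g : List Bool → List Bool),
  Theory A B → IsFP A g → Theory A (TG B μ g)

/-- RF-CONS: it is consistent (by the last part of `S_LOG`), and it proves `μ (g w)` in three
lines. -/
def S_CONS : Prop := ∀ (B : Set Fm) (μ : Fm) (g : List Bool → List Bool),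
  (∀ φ, LogAx φ → φ ∈ B) →
  ((∀ (w : List Bool) (e x z : ℕ), g w = bits (e, x, z) → Proves B (at3 μ e x z)) →
    Consistent B → Consistent (TG B μ g)) ∧
  ∀ (w : List Bool) (e x z : ℕ), g w = bits (e, x, z) →
    IsProof (TG B μ g) [at3 μ e x z, axm μ w e x z, Fm.eq (.var (codeN w)) (.var (codeN w))]

/-- RF-FIN: the question has a positive answer relative to every oracle for which no set that is hard
for `NP` has a `p`-optimal proof system. -/
def S_FIN : Prop := ∀ A : Oracle,
  (∀ (L : Set (List Bool)) (P : List Bool → List Bool), NPHardRel A L → ¬ IsPOptimal A L P) →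
    Question A

end Pool.Agent.J6H17.RF
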