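import Pool.Agent.J6H17.RF.DefsN
import Pool.Agent.J6H17.RF.Stm

/-!
# Project RF, negative answer: statements of the modules
-/

set_option autoImplicit false

namespace Pool.Agent.J6H17.RF

open Pool.Agent.NPC Pool.Agent.H628R3.RO

/-- the string for `Pr`, `n`, `m` -/
def trp (Pr : Fm) (n m : ℕ) : List Bool :=
  pairBits (bits Pr) (pairBits (List.replicate n true) (List.replicate m true))

/-- The set of all `(Pr, n, m)` for which all instances for arguments of length at most `n` of
`Pr (e, u, x, z) → μ (e, x, z)` have proofs in `B` of length at most `m`. -/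
def W (B : Set Fm) (μ : Fm) : Set (List Bool) :=
  {y | ∃ (Pr : Fm) (n m : ℕ), y = trp Pr n m ∧
    ∀ e u x z : ℕ, e.size ≤ n → u.size ≤ n → x.size ≤ n → z.size ≤ n → ∃ π : List Fm,
      IsProof B ((in4 Pr e u x z).imp (at3 μ e x z) :: π) ∧
        (bits ((in4 Pr e u x z).imp (at3 μ e x z) :: π)).length ≤ m}

/-- RFN-PS: it is in polynomial space. For all `v = bits (e, u, x, z)` with numbers of size at most
`n` there is `w` of length at most `m` with `C w = [true]` (`S_CHK`) such that the first tree of the
list coded by `w` is the tree of `(in4 Pr e u x z).imp (at3 μ e x z)`, which is computed from the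
tree of `Pr` by constructors (no recursion over `Pr`); in particular, the first component of `y` is the
code of a formula (take `e = u = x = z = 0`). Use `IsPSPACE.exists_short`, `IsPSPACE.compl`
(`Pool/Agent/H620R2/Gauge/U1.lean`) or the lemma `quant` there; `isPSPACE_of_isP`
(`Pool/Agent/J6H49/ES`); tools in `RF/Fin.lean`: `poly_bits`, `trees`, `trees_bits`, `poly_trees`. -/
def S_NPS : Prop := ∀ (A : Oracle) (B : Set Fm) (μ : Fm), Theory A B →
  Pool.Agent.H620R2.Gauge.IsPSPACE A (W B μ)

/-- RFN-Q: for a theory `T` all reflection sentences are in the set, with `m` polynomial in `n`.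
If `u` is not a proof: from `(in4 …).neg` of polynomial length (`FormalizesD.short`) to
`(in4 …).imp (at3 …)` in a bounded number of steps with logical axioms. If `u` is a proof of
`μ (e, x, z)` in `T`, then `B` proves it (`B` decides, `T` is consistent and contains `B`), with a
proof of polynomial length (`BaseD.short`), and use the axiom `at3 … → (in4 … → at3 …)`. The lengths of
the formulas are polynomial as they are polynomial-time computable functions of `(e, u, x, z)`
(`Poly.sz_le`). -/
def S_NQ : Prop := ∀ (A : Oracle) (B : Set Fm) (μ : Fm), BaseD A B μ →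
  ∀ T : Set Fm, Theory A T → B ⊆ T → Consistent T → ∀ Pr : Fm, FormalizesD A B μ T Pr →
    ∃ q : Polynomial ℕ, ∀ n : ℕ, trp Pr n (q.eval n) ∈ W B μ

/-- The theory `S`: the axiom of the string `w`, where `P w` is the string for `Pr`, `n`, `m`, is
`x_c = x_c → rfn Pr μ n`, where `c` is the number of `w`. -/
def SN (B : Set Fm) (μ : Fm) (P : List Bool → List Bool) : Set Fm :=
  B ∪ {φ | ∃ (w : List Bool) (Pr : Fm) (n m : ℕ), P w = trp Pr n m ∧
    φ = (Fm.eq (.var (codeN w)) (.var (codeN w))).imp (rfn Pr μ n)}

/-- RFN-TH: it is a theory. (Parse the string to a tree; compute `c` and `w` from the tree of a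
formula of the shape `x_c = x_c → ψ`; compute `P w = trp Pr n m` and compare the tree with that of the
axiom, which is computed from the tree of `Pr` by constructors, no recursion over `Pr`.) -/
def S_NTH : Prop := ∀ (A : Oracle) (B : Set Fm) (μ : Fm) (P : List Bool → List Bool),
  Theory A B → IsFP A P → (∀ w, ∃ (Pr : Fm) (n m : ℕ), P w = trp Pr n m) → Theory A (SN B μ P)

/-- RFN-FP: some strings and formulas are computable in polynomial time: `1^n ↦ trp Pr n (q n)`, and
`(w, 1^n) ↦` the code of the proof of `rfn Pr μ n` from the axiom of the string `w` (three lines),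
for a fixed formula `Pr`. -/
def S_NFP : Prop := ∀ (Pr μ : Fm) (q : Polynomial ℕ),
  Poly (fun y : List Bool => trp Pr y.length (q.eval y.length)) ∧
  Poly (fun a : List Bool × List Bool => bits [rfn Pr μ a.2.length,
    (Fm.eq (.var (codeN a.1)) (.var (codeN a.1))).imp (rfn Pr μ a.2.length),
    Fm.eq (.var (codeN a.1)) (.var (codeN a.1))])

end Pool.Agent.J6H17.RF
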